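import Pool.Agent.Lib.MP_af3a4a_an.SV.Interfaces

/-!
# Module CORNER: the corner `r ≥ 31/32`, `d ≤ 1/4`
-/

namespace Pool.Agent.Lib.MP_af3a4a_an.SV

open Finset MeasureTheory

namespace CORNER

theorem hh_one (N : ℕ) (hN : 3 ≤ N) (r x : ℝ) :
    hh N r 1 x = 1 - 2 * ((N * r - 2) / (N - 2)) * x + x ^ 2 := by
  have h : (3 : ℝ) ≤ N := by exact_mod_cast hN
  have h2 : (N : ℝ) - 2 ≠ 0 := by linarith
  unfold hh
  rw [mul_one, div_self h2, one_mul]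

theorem rho_le (N : ℕ) (hN : 3 ≤ N) (r : ℝ) (hr : r ≤ 1) :
    ((N : ℝ) * r - 2) / (N - 2) ≤ 1 := by
  have h : (3 : ℝ) ≤ N := by exact_mod_cast hN
  rw [div_le_one (by linarith)]
  nlinarith

theorem hh_nonneg (N : ℕ) (hN : 3 ≤ N) (r x : ℝ) (hr : r ≤ 1) (hx : 0 ≤ x) :
    0 ≤ hh N r 1 x := by
  rw [hh_one N hN]
  have h := rho_le N hN r hr
  nlinarith [sq_nonneg (1 - x), mul_le_mul_of_nonneg_right h hx]

theorem JJ_nonneg (N : ℕ) (r S y : ℝ) (hy : 0 ≤ y) : 0 ≤ JJ N r S y := by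
  unfold JJ
  refine mul_nonneg (Nat.cast_nonneg _) ?_
  refine intervalIntegral.integral_nonneg hy fun x hx => ?_
  exact mul_nonneg hx.1 (pow_nonneg (Real.sqrt_nonneg _) _)

/-- `N = 4` -/
theorem p4 (r : ℝ) (hr : 31 / 32 ≤ r) (hr1 : r ≤ 1) :
    4 * I1 (2 * r - 1) (2 * 1 - 1) r ≤ 1 / 2 := by
  unfold I1
  have h0 : 0 ≤ r - 31 / 32 := by linarith
  have h1 : 0 ≤ 1 - r := by linarith
  nlinarith [mul_nonneg h0 h1, mul_nonneg (mul_nonneg h0 h1) h0, mul_nonneg (mul_nonneg h0 h1) h1,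
    mul_nonneg (mul_nonneg h0 h0) (mul_nonneg h1 h1), pow_nonneg h0 2, pow_nonneg h0 3,
    pow_nonneg h0 4]

/-- `N = 5` -/
theorem p5 (r : ℝ) (hr : 31 / 32 ≤ r) (hr1 : r ≤ 1) :
    2 * I1 ((5 * r - 2) / 3) ((5 * 1 - 2) / 3) r + 25 / 8 * I2 ((5 * r - 2) / 3) ((5 * 1 - 2) / 3) r
      ≤ 1 / 2 := by
  unfold I1 I2
  obtain ⟨t, rfl⟩ : ∃ t, r = 1 - t := ⟨1 - r, by ring⟩
  have h0 : 0 ≤ t := by linarith
  have h1 : t ≤ 1 / 32 := by linarith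
  have h2 : t ^ 2 ≤ 1 / 32 * t := by nlinarith
  have h3 : t ^ 3 ≤ 1 / 32 * t := by nlinarith [pow_nonneg h0 2]
  have h4 : t ^ 4 ≤ 1 / 32 * t := by nlinarith [pow_nonneg h0 2, pow_nonneg h0 3]
  have h5 : t ^ 5 ≤ 1 / 32 * t := by nlinarith [pow_nonneg h0 3, pow_nonneg h0 4]
  have h6 : t ^ 6 ≤ 1 / 32 * t := by nlinarith [pow_nonneg h0 4, pow_nonneg h0 5]
  have e2 := pow_nonneg h0 2
  have e3 := pow_nonneg h0 3
  have e4 := pow_nonneg h0 4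
  have e5 := pow_nonneg h0 5
  have e6 := pow_nonneg h0 6
  ring_nf
  nlinarith

/-- `N = 6` -/
theorem p6 (r : ℝ) (hr : 31 / 32 ≤ r) (hr1 : r ≤ 1) :
    6 * I2 ((3 * r - 1) / 2) ((3 * 1 - 1) / 2) r ≤ 1 / 2 := by
  unfold I2
  obtain ⟨t, rfl⟩ : ∃ t, r = 1 - t := ⟨1 - r, by ring⟩
  have h0 : 0 ≤ t := by linarith
  have h1 : t ≤ 1 / 32 := by linarith
  have h2 : t ^ 2 ≤ 1 / 32 * t := by nlinarith
  have h3 : t ^ 3 ≤ 1 / 32 * t := by nlinarith [pow_nonneg h0 2]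
  have h4 : t ^ 4 ≤ 1 / 32 * t := by nlinarith [pow_nonneg h0 2, pow_nonneg h0 3]
  have h5 : t ^ 5 ≤ 1 / 32 * t := by nlinarith [pow_nonneg h0 3, pow_nonneg h0 4]
  have h6 : t ^ 6 ≤ 1 / 32 * t := by nlinarith [pow_nonneg h0 4, pow_nonneg h0 5]
  have e2 := pow_nonneg h0 2
  have e3 := pow_nonneg h0 3
  have e4 := pow_nonneg h0 4
  have e5 := pow_nonneg h0 5
  have e6 := pow_nonneg h0 6
  ring_nf
  nlinarith

/-- `N ≥ 7` -/
theorem p7 (hJ : JCF_S) (N : ℕ) (hN : 7 ≤ N) (r : ℝ) (hr : 31 / 32 ≤ r) (hr1 : r ≤ 1) :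
    JJ N r 1 r ≤ 1 / 2 := by
  have hN7 : (7 : ℝ) ≤ N := by exact_mod_cast hN
  have h2 : (0 : ℝ) < (N : ℝ) - 2 := by linarith
  set lam : ℝ := (((N : ℝ) + 2) * r - 4) / (N - 2) with hlam
  have hlow : 151 / 160 ≤ lam := by
    rw [hlam, le_div_iff₀ h2]
    nlinarith
  have hx : ∀ x : ℝ, 0 ≤ x → x ≤ r → hh N r 1 x ≤ 1 - lam * x := by
    intro x hx0 hxr
    rw [hh_one N (by omega)]
    have e1 : lam = 2 * (((N : ℝ) * r - 2) / (N - 2)) - r := by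
      rw [hlam]
      field_simp
      ring
    rw [e1]
    nlinarith
  have h := (hJ N r 1 r lam (by omega) (by linarith) (by linarith) hx).1
  refine h.trans ?_
  rw [div_le_iff₀ (by positivity)]
  have e1 : (151 / 160 : ℝ) ^ 2 ≤ lam ^ 2 := by
    apply pow_le_pow_left₀ (by norm_num) hlow
  nlinarith

theorem J_half (hJ : JCF_S) (hP : JPOL_S) (N : ℕ) (hN : 4 ≤ N) (r : ℝ) (hr : 31 / 32 ≤ r)
    (hr1 : r ≤ 1) : JJ N r 1 r ≤ 1 / 2 := by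
  have h0 : 0 ≤ r := by linarith
  obtain ⟨-, q4, q5, q6⟩ := hP r 1 r h0
  rcases Nat.lt_or_ge N 7 with h | h
  · interval_cases N
    · exact (q4 (fun x hx _ => hh_nonneg 4 (by norm_num) r x hr1 hx)).trans (p4 r hr hr1)
    · exact (q5 (fun x hx _ => hh_nonneg 5 (by norm_num) r x hr1 hx)).trans (p5 r hr hr1)
    · exact (q6 (fun x hx _ => hh_nonneg 6 (by norm_num) r x hr1 hx)).trans (p6 r hr hr1)
  · exact p7 hJ N h r hr hr1

end CORNER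

theorem corner (h1 : FIN_S) (h2 : JCF_S) (h3 : JMON_S) (h4 : JPOL_S) : CORNER_S := by
  intro N r d R S m E hN hB hr hd
  have hr0 : 0 ≤ r := hB.r0
  have hrp : 0 < r := by linarith
  have hS1 : S ≤ 1 := hB.S1
  have hrS : r ^ 2 ≤ S := hB.rS
  have hr1 : r ≤ 1 := by nlinarith
  set s : ℝ := 1 - r ^ 2 with hs
  have hs0 : 0 ≤ s := by rw [hs]; nlinarith
  have hs1 : s ≤ 63 / 1024 := by rw [hs]; nlinarith
  refine h1 N r d R S m E hN hB hrp hd ?_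
  have hJ1 : JJ N r S r ≤ JJ N r 1 r := h3 N r S r r 1 (by omega) hr0 le_rfl hS1
  have hJ2 : JJ N r 1 r ≤ 1 / 2 := CORNER.J_half h2 h4 N hN r hr hr1
  have hJ0 : 0 ≤ JJ N r S r := CORNER.JJ_nonneg N r S r hr0
  -- first term
  have e1 : Real.sqrt (1 - 2 * r * r + r ^ 2 * r ^ 2) = s := by
    rw [show 1 - 2 * r * r + r ^ 2 * r ^ 2 = s ^ 2 by rw [hs]; ring]
    exact Real.sqrt_sq hs0
  have e2 : Real.sqrt (1 - 2 * r * r + r ^ 2 * S) ≤ Real.sqrt s := by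
    apply Real.sqrt_le_sqrt
    rw [hs]
    nlinarith [mul_le_mul_of_nonneg_left hS1 (sq_nonneg r)]
  have e3 : Real.sqrt (1 - 2 * r * r + r ^ 2 * S) ^ N ≤ s ^ 2 := by
    calc Real.sqrt (1 - 2 * r * r + r ^ 2 * S) ^ N ≤ Real.sqrt s ^ N :=
          pow_le_pow_left₀ (Real.sqrt_nonneg _) e2 N
      _ ≤ Real.sqrt s ^ 4 := by
          apply pow_le_pow_of_le_one (Real.sqrt_nonneg _) _ hN
          calc Real.sqrt s ≤ Real.sqrt 1 := Real.sqrt_le_sqrt (by linarith)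
            _ = 1 := Real.sqrt_one
      _ = s ^ 2 := by
          rw [show (4 : ℕ) = 2 * 2 by norm_num, pow_mul, Real.sq_sqrt hs0]
  have e4 : XX N r r S r ≤ s * s ^ 2 + s * (1 / 2) := by
    unfold XX
    rw [e1]
    refine add_le_add (mul_le_mul_of_nonneg_left e3 hs0) ?_
    have e5 : S - r ^ 2 ≤ s := by rw [hs]; linarith
    calc (S - r ^ 2) * JJ N r S r ≤ s * JJ N r S r := mul_le_mul_of_nonneg_right e5 hJ0
      _ ≤ s * (1 / 2) := mul_le_mul_of_nonneg_left (hJ1.trans hJ2) hs0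
  -- exponential
  have e6 : Real.exp (s / 2) * (1 - s / 2) ≤ 1 := by
    have := Real.one_sub_le_exp_neg (s / 2)
    calc Real.exp (s / 2) * (1 - s / 2) ≤ Real.exp (s / 2) * Real.exp (-(s / 2)) :=
          mul_le_mul_of_nonneg_left this (Real.exp_pos _).le
      _ = 1 := by rw [← Real.exp_add]; simp
  have e7 : r ^ 2 * Real.exp (s / 2) ≤ 1 - s / 2 - s ^ 2 / 4 := by
    have hr2 : r ^ 2 = 1 - s := by rw [hs]; ring
    rw [hr2]
    have h5 : (1 - s) ≤ (1 - s / 2) * (1 - s / 2 - s ^ 2 / 4) := by nlinarith [pow_nonneg hs0 3]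
    have h6 : 0 ≤ 1 - s / 2 - s ^ 2 / 4 := by nlinarith
    calc (1 - s) * Real.exp (s / 2) ≤ (1 - s / 2) * (1 - s / 2 - s ^ 2 / 4) * Real.exp (s / 2) :=
          mul_le_mul_of_nonneg_right h5 (Real.exp_pos _).le
      _ = (1 - s / 2 - s ^ 2 / 4) * (Real.exp (s / 2) * (1 - s / 2)) := by ring
      _ ≤ (1 - s / 2 - s ^ 2 / 4) * 1 := mul_le_mul_of_nonneg_left e6 h6
      _ = _ := by ring
  have e8 : s * s ^ 2 ≤ s ^ 2 / 4 := by nlinarith [sq_nonneg s]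
  linarith

end Pool.Agent.Lib.MP_af3a4a_an.SV
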