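import Pool.Agent.Lib.MP_af3a4a_an.SV.Interfaces

/-!
Module JCF: closed form bounds and monotonicity of the integral `J`.
-/

set_option autoImplicit false

namespace Pool.Agent.Lib.MP_af3a4a_an.SV

open Finset MeasureTheory

namespace JCF

lemma hh_cont (N : ℕ) (ρ S : ℝ) : Continuous (hh N ρ S) := by
  unfold hh
  fun_prop

lemma ig_cont (N : ℕ) (ρ S : ℝ) :
    Continuous fun x : ℝ => x * Real.sqrt (hh N ρ S x) ^ (N - 2) :=
  continuous_id.mul ((Real.continuous_sqrt.comp (hh_cont N ρ S)).pow _)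

/-- the comparison integrand -/
noncomputable def cb (N : ℕ) (lam x : ℝ) : ℝ := x * Real.sqrt (1 - lam * x) ^ (N - 2)

lemma cb_cont (N : ℕ) (lam : ℝ) : Continuous (cb N lam) := by
  unfold cb
  fun_prop

/-- its antiderivative -/
noncomputable def ad (N : ℕ) (lam x : ℝ) : ℝ :=
  -(4 / ((N + 2) * lam ^ 2)) * (Real.sqrt (1 - lam * x) ^ N * (1 + N / 2 * (lam * x)))

lemma ad_cont (N : ℕ) (lam : ℝ) : Continuous (ad N lam) := by
  unfold ad
  fun_prop

lemma ad_deriv (N : ℕ) (lam x : ℝ) (hN : 3 ≤ N) (hlam : 0 < lam) (hx : lam * x < 1) :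
    HasDerivAt (ad N lam) (N * cb N lam x) x := by
  have hpos : 0 < 1 - lam * x := by linarith
  set s := Real.sqrt (1 - lam * x) with hs
  have hspos : 0 < s := Real.sqrt_pos.2 hpos
  have hs2 : s ^ 2 = 1 - lam * x := Real.sq_sqrt hpos.le
  have h1 : HasDerivAt (fun x : ℝ => 1 - lam * x) (-lam) x := by
    have := ((hasDerivAt_id x).const_mul lam).const_sub 1
    simpa using this
  have h2 : HasDerivAt (fun x : ℝ => Real.sqrt (1 - lam * x)) (-lam / (2 * s)) x :=
    h1.sqrt hpos.ne'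
  have h3 : HasDerivAt (fun x : ℝ => Real.sqrt (1 - lam * x) ^ N)
      (N * s ^ (N - 1) * (-lam / (2 * s))) x := h2.pow N
  have h4 : HasDerivAt (fun x : ℝ => 1 + (N : ℝ) / 2 * (lam * x)) ((N : ℝ) / 2 * lam) x := by
    have := (((hasDerivAt_id x).const_mul lam).const_mul ((N : ℝ) / 2)).const_add 1
    simpa using this
  have h5 := (h3.mul h4).const_mul (-(4 / (((N : ℝ) + 2) * lam ^ 2)))
  refine HasDerivAt.congr_deriv h5 ?_
  obtain ⟨k, rfl⟩ : ∃ k, N = k + 2 := ⟨N - 2, by omega⟩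
  have e1 : k + 2 - 1 = k + 1 := by omega
  have e2 : k + 2 - 2 = k := by omega
  unfold cb
  rw [e1, e2, ← hs]
  have hN2 : ((k + 2 : ℕ) : ℝ) + 2 ≠ 0 := by positivity
  have hx' : lam * x = 1 - s ^ 2 := by linarith
  have hxx : x = (1 - s ^ 2) / lam := by
    rw [← hx']; field_simp
  rw [hx', hxx]
  field_simp
  ring

lemma int_cb (N : ℕ) (lam y : ℝ) (hN : 3 ≤ N) (hlam : 0 < lam) (hy : 0 ≤ y)
    (hly : lam * y ≤ 1) :
    N * ∫ x in (0 : ℝ)..y, cb N lam x = 4 / ((N + 2) * lam ^ 2) *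
      (1 - Real.sqrt (1 - lam * y) ^ N * (1 + N / 2 * (lam * y))) := by
  rw [← intervalIntegral.integral_const_mul,
    intervalIntegral.integral_eq_sub_of_hasDerivAt_of_le hy (f := ad N lam)
      (ad_cont N lam).continuousOn ?_ ?_]
  · unfold ad
    simp
    ring
  · intro x hx
    refine ad_deriv N lam x hN hlam ?_
    have := mul_lt_mul_of_pos_left hx.2 hlam
    linarith
  · exact (continuous_const.mul (cb_cont N lam)).intervalIntegrable _ _

end JCF

open JCF in
/-- Module JCF. -/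
theorem jcf : JCF_S := by
  intro N ρ S y lam hN hy hlam hh1
  have hN0 : (0 : ℝ) < N := by
    have : (3 : ℝ) ≤ N := by exact_mod_cast hN
    linarith
  have hK : 0 < 4 / (((N : ℝ) + 2) * lam ^ 2) := by positivity
  -- pointwise
  have hle : JJ N ρ S y ≤ N * ∫ x in (0 : ℝ)..y, cb N lam x := by
    unfold JJ
    refine mul_le_mul_of_nonneg_left ?_ hN0.le
    refine intervalIntegral.integral_mono_on hy ((ig_cont N ρ S).intervalIntegrable _ _)
      ((cb_cont N lam).intervalIntegrable _ _) ?_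
    intro x hx
    refine mul_le_mul_of_nonneg_left ?_ hx.1
    exact pow_le_pow_left₀ (Real.sqrt_nonneg _) (Real.sqrt_le_sqrt (hh1 x hx.1 hx.2)) _
  have hsmall : lam * y ≤ 1 → JJ N ρ S y ≤ 4 / ((N + 2) * lam ^ 2) *
      (1 - Real.sqrt (1 - lam * y) ^ N * (1 + N / 2 * (lam * y))) := by
    intro hly
    rw [← int_cb N lam y hN hlam hy hly]
    exact hle
  refine ⟨?_, hsmall⟩
  by_cases hly : lam * y ≤ 1
  · refine (hsmall hly).trans ?_
    have h1 : 0 ≤ Real.sqrt (1 - lam * y) ^ N * (1 + N / 2 * (lam * y)) := by positivity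
    calc 4 / (((N : ℝ) + 2) * lam ^ 2) *
          (1 - Real.sqrt (1 - lam * y) ^ N * (1 + N / 2 * (lam * y)))
        ≤ 4 / (((N : ℝ) + 2) * lam ^ 2) * 1 :=
          mul_le_mul_of_nonneg_left (by linarith) hK.le
      _ = _ := mul_one _
  · push Not at hly
    refine hle.trans ?_
    have hy0 : 1 / lam ≤ y := by
      rw [div_le_iff₀ hlam]; linarith
    have hsplit : ∫ x in (0 : ℝ)..y, cb N lam x =
        (∫ x in (0 : ℝ)..(1 / lam), cb N lam x) + ∫ x in (1 / lam)..y, cb N lam x :=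
      (intervalIntegral.integral_add_adjacent_intervals
        ((cb_cont N lam).intervalIntegrable _ _) ((cb_cont N lam).intervalIntegrable _ _)).symm
    have hzero : ∫ x in (1 / lam)..y, cb N lam x = 0 := by
      rw [intervalIntegral.integral_congr (g := fun _ => (0 : ℝ)) ?_]
      · simp
      · intro x hx
        rw [Set.uIcc_of_le hy0] at hx
        have h1 : 1 - lam * x ≤ 0 := by
          have h2 := mul_le_mul_of_nonneg_left hx.1 hlam.le
          rw [mul_one_div_cancel hlam.ne'] at h2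
          linarith
        show x * Real.sqrt (1 - lam * x) ^ (N - 2) = 0
        rw [Real.sqrt_eq_zero_of_nonpos h1, zero_pow (by omega), mul_zero]
    rw [hsplit, hzero, add_zero, int_cb N lam (1 / lam) hN hlam (by positivity)
      (by rw [mul_one_div_cancel hlam.ne']), mul_one_div_cancel hlam.ne']
    rw [sub_self, Real.sqrt_zero, zero_pow (by omega)]
    simp

open JCF in
/-- Module JCF, part 2. -/
theorem jmon : JMON_S := by
  intro N ρ S y ρ1 S1 hN hy hρ hS
  have hN0 : (3 : ℝ) ≤ N := by exact_mod_cast hN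
  unfold JJ
  refine mul_le_mul_of_nonneg_left ?_ (by linarith)
  refine intervalIntegral.integral_mono_on hy ((ig_cont N ρ S).intervalIntegrable _ _)
    ((ig_cont N ρ1 S1).intervalIntegrable _ _) ?_
  intro x hx
  refine mul_le_mul_of_nonneg_left ?_ hx.1
  refine pow_le_pow_left₀ (Real.sqrt_nonneg _) (Real.sqrt_le_sqrt ?_) _
  unfold hh
  have h2 : (0 : ℝ) < N - 2 := by linarith
  have h3 : (N * ρ1 - 2) / ((N : ℝ) - 2) ≤ (N * ρ - 2) / (N - 2) := by
    rw [div_le_div_iff_of_pos_right h2]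
    nlinarith
  have h4 : (N * S - 2) / ((N : ℝ) - 2) ≤ (N * S1 - 2) / (N - 2) := by
    rw [div_le_div_iff_of_pos_right h2]
    nlinarith
  have h5 := mul_le_mul_of_nonneg_right h3 hx.1
  have h6 := mul_le_mul_of_nonneg_right h4 (sq_nonneg x)
  linarith

end Pool.Agent.Lib.MP_af3a4a_an.SV
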