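import Pool.Agent.Lib.MP_af3a4a_an.SV.Interfaces

/-!
# Module JPOL: polynomial bounds of `J` for `N = 3, 4, 5, 6`
-/

namespace Pool.Agent.Lib.MP_af3a4a_an.SV

open Finset MeasureTheory Set

namespace JPOL

lemma int1 (p s y : ℝ) :
    ∫ x in (0 : ℝ)..y, x * (1 - 2 * p * x + s * x ^ 2) = I1 p s y := by
  have h : ∀ x : ℝ, HasDerivAt (fun x => I1 p s x) (x * (1 - 2 * p * x + s * x ^ 2)) x := by
    intro x
    have h1 : HasDerivAt (fun x : ℝ => x ^ 2 / 2) (2 * x / 2) x := by
      simpa using (hasDerivAt_pow 2 x).div_const 2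
    have h2 : HasDerivAt (fun x : ℝ => 2 / 3 * p * x ^ 3) (2 / 3 * p * (3 * x ^ 2)) x := by
      simpa using (hasDerivAt_pow 3 x).const_mul (2 / 3 * p)
    have h3 : HasDerivAt (fun x : ℝ => s * x ^ 4 / 4) (s * (4 * x ^ 3) / 4) x := by
      simpa using ((hasDerivAt_pow 4 x).const_mul s).div_const 4
    have h4 := (h1.sub h2).add h3
    have h5 : HasDerivAt (fun x => I1 p s x)
        (2 * x / 2 - 2 / 3 * p * (3 * x ^ 2) + s * (4 * x ^ 3) / 4) x := h4
    exact h5.congr_deriv (by ring)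
  rw [intervalIntegral.integral_eq_sub_of_hasDerivAt (fun x _ => h x)
    (by apply Continuous.intervalIntegrable; fun_prop)]
  simp [I1]

lemma int2 (p s y : ℝ) :
    ∫ x in (0 : ℝ)..y, x * (1 - 2 * p * x + s * x ^ 2) ^ 2 = I2 p s y := by
  have h : ∀ x : ℝ, HasDerivAt (fun x => I2 p s x) (x * (1 - 2 * p * x + s * x ^ 2) ^ 2) x := by
    intro x
    have h1 : HasDerivAt (fun x : ℝ => x ^ 2 / 2) (2 * x / 2) x := by
      simpa using (hasDerivAt_pow 2 x).div_const 2
    have h2 : HasDerivAt (fun x : ℝ => 4 / 3 * p * x ^ 3) (4 / 3 * p * (3 * x ^ 2)) x := by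
      simpa using (hasDerivAt_pow 3 x).const_mul (4 / 3 * p)
    have h3 : HasDerivAt (fun x : ℝ => (2 * p ^ 2 + s) * x ^ 4 / 2)
        ((2 * p ^ 2 + s) * (4 * x ^ 3) / 2) x := by
      simpa using ((hasDerivAt_pow 4 x).const_mul (2 * p ^ 2 + s)).div_const 2
    have h4 : HasDerivAt (fun x : ℝ => 4 / 5 * p * s * x ^ 5) (4 / 5 * p * s * (5 * x ^ 4)) x := by
      simpa using (hasDerivAt_pow 5 x).const_mul (4 / 5 * p * s)
    have h5 : HasDerivAt (fun x : ℝ => s ^ 2 * x ^ 6 / 6) (s ^ 2 * (6 * x ^ 5) / 6) x := by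
      simpa using ((hasDerivAt_pow 6 x).const_mul (s ^ 2)).div_const 6
    have h6 := (((h1.sub h2).add h3).sub h4).add h5
    have h7 : HasDerivAt (fun x => I2 p s x)
        (2 * x / 2 - 4 / 3 * p * (3 * x ^ 2) + (2 * p ^ 2 + s) * (4 * x ^ 3) / 2 -
        4 / 5 * p * s * (5 * x ^ 4) + s ^ 2 * (6 * x ^ 5) / 6) x := h6
    exact h7.congr_deriv (by ring)
  rw [intervalIntegral.integral_eq_sub_of_hasDerivAt (fun x _ => h x)
    (by apply Continuous.intervalIntegrable; fun_prop)]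
  simp [I2]

lemma sqrt1 (h : ℝ) (h0 : 0 ≤ h) : Real.sqrt h ≤ 1 / 3 + 3 / 4 * h := by
  have h1 := Real.sq_sqrt h0
  have h2 := sq_nonneg (Real.sqrt h - 2 / 3)
  nlinarith

lemma sqrt3 (h : ℝ) (h0 : 0 ≤ h) : Real.sqrt h ^ 3 ≤ 2 / 5 * h + 5 / 8 * h ^ 2 := by
  have h1 := Real.sq_sqrt h0
  have hs := Real.sqrt_nonneg h
  have h2 : Real.sqrt h ≤ 2 / 5 + 5 / 8 * h := by
    have := sq_nonneg (Real.sqrt h - 4 / 5)
    nlinarith
  calc Real.sqrt h ^ 3 = Real.sqrt h * Real.sqrt h ^ 2 := by ring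
    _ = Real.sqrt h * h := by rw [h1]
    _ ≤ (2 / 5 + 5 / 8 * h) * h := mul_le_mul_of_nonneg_right h2 h0
    _ = _ := by ring

end JPOL

theorem jpol : JPOL_S := by
  intro ρ S y hy
  refine ⟨fun hh0 => ?_, fun hh0 => ?_, fun hh0 => ?_, fun hh0 => ?_⟩
  · have e : ∀ x, hh 3 ρ S x = 1 - 2 * (3 * ρ - 2) * x + (3 * S - 2) * x ^ 2 := by
      intro x
      unfold hh
      norm_num
    simp only [e] at hh0
    unfold JJ
    simp only [e]
    have h1 : ∫ x in (0 : ℝ)..y,
        x * Real.sqrt (1 - 2 * (3 * ρ - 2) * x + (3 * S - 2) * x ^ 2) ^ (3 - 2) ≤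
        ∫ x in (0 : ℝ)..y, (1 / 3 * x + 3 / 4 * (x * (1 - 2 * (3 * ρ - 2) * x +
          (3 * S - 2) * x ^ 2))) := by
      refine intervalIntegral.integral_mono_on hy ?_ ?_ ?_
      · apply Continuous.intervalIntegrable
        fun_prop
      · apply Continuous.intervalIntegrable
        fun_prop
      · intro x hx
        have h2 := JPOL.sqrt1 _ (hh0 x hx.1 hx.2)
        have h3 := mul_le_mul_of_nonneg_left h2 hx.1
        show x * Real.sqrt _ ^ 1 ≤ _
        rw [pow_one]
        linarith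
    rw [intervalIntegral.integral_add (by apply Continuous.intervalIntegrable; fun_prop)
      (by apply Continuous.intervalIntegrable; fun_prop),
      intervalIntegral.integral_const_mul, intervalIntegral.integral_const_mul, JPOL.int1,
      integral_id] at h1
    push_cast
    linarith
  · have e : ∀ x, hh 4 ρ S x = 1 - 2 * (2 * ρ - 1) * x + (2 * S - 1) * x ^ 2 := by
      intro x
      unfold hh
      push_cast
      ring
    simp only [e] at hh0
    unfold JJ
    simp only [e]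
    have h1 : ∫ x in (0 : ℝ)..y,
        x * Real.sqrt (1 - 2 * (2 * ρ - 1) * x + (2 * S - 1) * x ^ 2) ^ (4 - 2) ≤
        ∫ x in (0 : ℝ)..y, (x * (1 - 2 * (2 * ρ - 1) * x + (2 * S - 1) * x ^ 2)) := by
      refine intervalIntegral.integral_mono_on hy ?_ ?_ ?_
      · apply Continuous.intervalIntegrable
        fun_prop
      · apply Continuous.intervalIntegrable
        fun_prop
      · intro x hx
        show x * Real.sqrt _ ^ 2 ≤ _
        rw [Real.sq_sqrt (hh0 x hx.1 hx.2)]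
    rw [JPOL.int1] at h1
    push_cast
    linarith
  · have e : ∀ x, hh 5 ρ S x = 1 - 2 * ((5 * ρ - 2) / 3) * x + ((5 * S - 2) / 3) * x ^ 2 := by
      intro x
      unfold hh
      norm_num
    simp only [e] at hh0
    unfold JJ
    simp only [e]
    have h1 : ∫ x in (0 : ℝ)..y,
        x * Real.sqrt (1 - 2 * ((5 * ρ - 2) / 3) * x + ((5 * S - 2) / 3) * x ^ 2) ^ (5 - 2) ≤
        ∫ x in (0 : ℝ)..y, (2 / 5 * (x * (1 - 2 * ((5 * ρ - 2) / 3) * x +
          ((5 * S - 2) / 3) * x ^ 2)) + 5 / 8 * (x * (1 - 2 * ((5 * ρ - 2) / 3) * x +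
          ((5 * S - 2) / 3) * x ^ 2) ^ 2)) := by
      refine intervalIntegral.integral_mono_on hy ?_ ?_ ?_
      · apply Continuous.intervalIntegrable
        fun_prop
      · apply Continuous.intervalIntegrable
        fun_prop
      · intro x hx
        have h2 := JPOL.sqrt3 _ (hh0 x hx.1 hx.2)
        have h3 := mul_le_mul_of_nonneg_left h2 hx.1
        show x * Real.sqrt _ ^ 3 ≤ _
        linarith
    rw [intervalIntegral.integral_add (by apply Continuous.intervalIntegrable; fun_prop)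
      (by apply Continuous.intervalIntegrable; fun_prop),
      intervalIntegral.integral_const_mul, intervalIntegral.integral_const_mul, JPOL.int1,
      JPOL.int2] at h1
    push_cast
    linarith
  · have e : ∀ x, hh 6 ρ S x = 1 - 2 * ((3 * ρ - 1) / 2) * x + ((3 * S - 1) / 2) * x ^ 2 := by
      intro x
      unfold hh
      push_cast
      ring
    simp only [e] at hh0
    unfold JJ
    simp only [e]
    have h1 : ∫ x in (0 : ℝ)..y,
        x * Real.sqrt (1 - 2 * ((3 * ρ - 1) / 2) * x + ((3 * S - 1) / 2) * x ^ 2) ^ (6 - 2) ≤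
        ∫ x in (0 : ℝ)..y, (x * (1 - 2 * ((3 * ρ - 1) / 2) * x +
          ((3 * S - 1) / 2) * x ^ 2) ^ 2) := by
      refine intervalIntegral.integral_mono_on hy ?_ ?_ ?_
      · apply Continuous.intervalIntegrable
        fun_prop
      · apply Continuous.intervalIntegrable
        fun_prop
      · intro x hx
        show x * Real.sqrt _ ^ 4 ≤ _
        have h2 := Real.sq_sqrt (hh0 x hx.1 hx.2)
        have h3 : ∀ a : ℝ, Real.sqrt a ^ 4 = (Real.sqrt a ^ 2) ^ 2 := fun a => by ring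
        rw [h3, h2]
    rw [JPOL.int2] at h1
    push_cast
    linarith

end Pool.Agent.Lib.MP_af3a4a_an.SV
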