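import Pool.Agent.Lib.MP_af3a4a_an.SV.Interfaces

/-!
Module XBD: the bound of the error term.
-/

set_option autoImplicit false

namespace Pool.Agent.Lib.MP_af3a4a_an.SV

open Finset MeasureTheory

namespace XBD

/-- arithmetic and geometric mean, with squares -/
theorem amgm {ι : Type*} (s : Finset ι) (M : ℕ) (hM : s.card = M) (hM0 : M ≠ 0) (y : ι → ℝ)
    (hy : ∀ i ∈ s, 0 ≤ y i) :
    ∏ i ∈ s, y i ≤ Real.sqrt ((∑ i ∈ s, y i ^ 2) / M) ^ M := by
  have hMpos : (0 : ℝ) < M := by exact_mod_cast Nat.pos_of_ne_zero hM0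
  have h1 := Real.geom_mean_le_arith_mean_weighted s (fun _ => 1 / (M : ℝ)) (fun i => y i ^ 2)
    (fun _ _ => by positivity) (by
      rw [Finset.sum_const, hM, nsmul_eq_mul]; field_simp) (fun _ _ => sq_nonneg _)
  rw [Real.finsetProd_rpow s (fun i => y i ^ 2) (fun i _ => sq_nonneg _) (1 / (M : ℝ)),
    ← Finset.mul_sum, Finset.prod_pow] at h1
  have hP : 0 ≤ ∏ i ∈ s, y i := Finset.prod_nonneg hy
  have h2 : (∏ i ∈ s, y i) ^ 2 ≤ ((∑ i ∈ s, y i ^ 2) / M) ^ M := by
    calc (∏ i ∈ s, y i) ^ 2 = (((∏ i ∈ s, y i) ^ 2) ^ (1 / (M : ℝ))) ^ M := by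
          rw [← Real.rpow_natCast _ M, ← Real.rpow_mul (sq_nonneg _),
            one_div, inv_mul_cancel₀ hMpos.ne', Real.rpow_one]
      _ ≤ (1 / (M : ℝ) * ∑ i ∈ s, y i ^ 2) ^ M := by
          apply pow_le_pow_left₀ (Real.rpow_nonneg (sq_nonneg _) _) h1
      _ = ((∑ i ∈ s, y i ^ 2) / M) ^ M := by
          congr 1
          ring
  have hA : 0 ≤ (∑ i ∈ s, y i ^ 2) / M :=
    div_nonneg (Finset.sum_nonneg fun _ _ => sq_nonneg _) hMpos.le
  apply le_of_sq_le_sq _ (pow_nonneg (Real.sqrt_nonneg _) _)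
  rw [← pow_mul, mul_comm M 2, pow_mul, Real.sq_sqrt hA]
  exact h2

theorem normSq_one_sub (x : ℝ) (z : ℂ) : ‖1 - (x : ℂ) * z‖ ^ 2 = 1 - 2 * x * z.re + x ^ 2 * ‖z‖ ^ 2 := by
  rw [Complex.sq_norm, Complex.sq_norm, Complex.normSq_apply, Complex.normSq_apply]
  simp only [Complex.sub_re, Complex.one_re, Complex.mul_re, Complex.ofReal_re, Complex.ofReal_im,
    Complex.sub_im, Complex.one_im, Complex.mul_im]
  ring

section

variable {N : ℕ} (u : Fin N → ℂ) (e : ℂ) (he : ‖e‖ = 1) (hu : ∀ k, ‖u k‖ ≤ 1) (hN : 3 ≤ N)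

include he hN in
/-- the sum of the squares -/
theorem sum_sq (x : ℝ) : ∑ k, ‖1 - (x : ℂ) * (e * u k)‖ ^ 2 =
    N * (1 - 2 * x * (e * av u).re + x ^ 2 * sq u) := by
  have hNpos : (0 : ℝ) < N := by
    have : 0 < N := by omega
    exact_mod_cast this
  simp only [normSq_one_sub, norm_mul, he, one_mul]
  rw [Finset.sum_add_distrib, Finset.sum_sub_distrib, Finset.sum_const, Finset.card_univ,
    Fintype.card_fin, ← Finset.mul_sum, ← Finset.mul_sum]
  have h1 : (e * av u).re = (1 / (N : ℝ)) * ∑ k, (e * u k).re := by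
    have : e * av u = ((1 / (N : ℝ) : ℝ) : ℂ) * ∑ k, e * u k := by
      unfold av
      rw [← Finset.mul_sum]
      push_cast
      ring
    rw [this, Complex.re_ofReal_mul, Complex.re_sum]
  rw [h1]
  unfold sq
  rw [nsmul_eq_mul]
  field_simp

include he hu in
theorem one_sub_le (x : ℝ) (hx0 : 0 ≤ x) (hx1 : x ≤ 1) (k : Fin N) :
    (1 - x) ^ 2 ≤ ‖1 - (x : ℂ) * (e * u k)‖ ^ 2 := by
  have h1 : ‖(1 : ℂ)‖ - ‖(x : ℂ) * (e * u k)‖ ≤ ‖1 - (x : ℂ) * (e * u k)‖ := norm_sub_norm_le _ _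
  rw [norm_one, norm_mul, norm_mul, he, one_mul, Complex.norm_real, Real.norm_eq_abs,
    abs_of_nonneg hx0] at h1
  have h2 : x * ‖u k‖ ≤ x := by
    have := mul_le_mul_of_nonneg_left (hu k) hx0
    linarith
  apply pow_le_pow_left₀ (by linarith)
  linarith

include he hu hN in
theorem hh_nonneg (x : ℝ) (hx0 : 0 ≤ x) (hx1 : x ≤ 1) : 0 ≤ hh N (e * av u).re (sq u) x := by
  have hN2 : (0 : ℝ) < (N : ℝ) - 2 := by
    have : (3 : ℝ) ≤ N := by exact_mod_cast hN
    linarith
  have h1 := sum_sq u e he hN x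
  have h2 : ∑ k : Fin N, (1 - x) ^ 2 ≤ ∑ k, ‖1 - (x : ℂ) * (e * u k)‖ ^ 2 :=
    Finset.sum_le_sum fun k _ => one_sub_le u e he hu x hx0 hx1 k
  rw [h1, Finset.sum_const, Finset.card_univ, Fintype.card_fin, nsmul_eq_mul] at h2
  have h3 : ((N : ℝ) - 2) * hh N (e * av u).re (sq u) x =
      N * (1 - 2 * x * (e * av u).re + x ^ 2 * sq u) - 2 * (1 - x) ^ 2 := by
    unfold hh
    field_simp
    ring
  have h4 : 0 ≤ ((N : ℝ) - 2) * hh N (e * av u).re (sq u) x := by
    rw [h3]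
    nlinarith [sq_nonneg (1 - x)]
  exact nonneg_of_mul_nonneg_right h4 hN2

include he hu hN in
theorem prod_le (x : ℝ) (hx0 : 0 ≤ x) (hx1 : x ≤ 1) (k j : Fin N) (hkj : j ∈ Finset.univ.erase k) :
    ∏ l ∈ (Finset.univ.erase k).erase j, ‖1 - (x : ℂ) * (e * u l)‖ ≤
      Real.sqrt (hh N (e * av u).re (sq u) x) ^ (N - 2) := by
  have hN2 : (0 : ℝ) < (N : ℝ) - 2 := by
    have : (3 : ℝ) ≤ N := by exact_mod_cast hN
    linarith
  have hc : ((Finset.univ.erase k).erase j).card = N - 2 := by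
    rw [Finset.card_erase_of_mem hkj, Finset.card_erase_of_mem (Finset.mem_univ _),
      Finset.card_univ, Fintype.card_fin]
    omega
  refine (amgm _ (N - 2) hc (by omega) _ (fun _ _ => norm_nonneg _)).trans ?_
  apply pow_le_pow_left₀ (Real.sqrt_nonneg _)
  apply Real.sqrt_le_sqrt
  have hcast : ((N - 2 : ℕ) : ℝ) = (N : ℝ) - 2 := by
    rw [Nat.cast_sub (by omega)]; norm_num
  rw [hcast, div_le_iff₀ hN2]
  have h1 := sum_sq u e he hN x
  have h3 : hh N (e * av u).re (sq u) x * ((N : ℝ) - 2) =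
      N * (1 - 2 * x * (e * av u).re + x ^ 2 * sq u) - 2 * (1 - x) ^ 2 := by
    unfold hh
    field_simp
    ring
  have h4 := Finset.add_sum_erase Finset.univ (fun l => ‖1 - (x : ℂ) * (e * u l)‖ ^ 2)
    (Finset.mem_univ k)
  have h5 := Finset.add_sum_erase (Finset.univ.erase k) (fun l => ‖1 - (x : ℂ) * (e * u l)‖ ^ 2) hkj
  have h6 := one_sub_le u e he hu x hx0 hx1 k
  have h7 := one_sub_le u e he hu x hx0 hx1 j
  rw [h3, ← h1]
  linarith

include hN in
theorem sum_diff : ∑ k, ∑ j ∈ Finset.univ.erase k, ‖u k - u j‖ ^ 2 =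
    2 * (N : ℝ) ^ 2 * (sq u - ‖av u‖ ^ 2) := by
  have hNpos : (0 : ℝ) < N := by
    have : 0 < N := by omega
    exact_mod_cast this
  have h1 : ∀ k, ∑ j ∈ Finset.univ.erase k, ‖u k - u j‖ ^ 2 = ∑ j, ‖u k - u j‖ ^ 2 := by
    intro k
    rw [← Finset.add_sum_erase Finset.univ (fun j => ‖u k - u j‖ ^ 2) (Finset.mem_univ k)]
    simp
  simp only [h1]
  have h2 : ∀ k j, ‖u k - u j‖ ^ 2 = ‖u k‖ ^ 2 + ‖u j‖ ^ 2
      - 2 * ((u k).re * (u j).re + (u k).im * (u j).im) := by
    intro k j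
    rw [Complex.sq_norm, Complex.sq_norm, Complex.sq_norm, Complex.normSq_apply,
      Complex.normSq_apply, Complex.normSq_apply]
    simp only [Complex.sub_re, Complex.sub_im]
    ring
  simp only [h2]
  simp only [Finset.sum_sub_distrib, Finset.sum_add_distrib, Finset.sum_const, Finset.card_univ,
    Fintype.card_fin, nsmul_eq_mul, ← Finset.mul_sum, ← Finset.sum_mul]
  have h3 : ‖av u‖ ^ 2 = (1 / (N : ℝ)) ^ 2 * ((∑ k, (u k).re) ^ 2 + (∑ k, (u k).im) ^ 2) := by
    have : av u = ((1 / (N : ℝ) : ℝ) : ℂ) * ∑ k, u k := by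
      unfold av
      push_cast
      ring
    rw [this, norm_mul, mul_pow, Complex.norm_real, Real.norm_eq_abs, sq_abs, Complex.sq_norm,
      Complex.normSq_apply, Complex.re_sum, Complex.im_sum]
    ring
  rw [h3]
  unfold sq
  field_simp
  ring

end

theorem integral_scale (φ : ℝ → ℝ) (t : ℝ) :
    t ^ 2 * ∫ s in (0 : ℝ)..1, s * φ (t * s) = ∫ x in (0 : ℝ)..t, x * φ x := by
  have h := intervalIntegral.mul_integral_comp_mul_left (a := 0) (b := 1)
    (f := fun x => x * φ x) t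
  simp only [mul_zero, mul_one] at h
  rw [← h, pow_two, mul_assoc, ← intervalIntegral.integral_const_mul]
  congr 1
  congr 1
  funext s
  ring

end XBD

/-- Module XBD. -/
theorem xbd (hX : XID_S) : XBD_S := by
  intro N u e t hN hu he ht0 ht1
  have hNpos : (0 : ℝ) < N := by
    have : 0 < N := by omega
    exact_mod_cast this
  refine ⟨XBD.hh_nonneg u e he hu hN, ?_⟩
  set b : Fin N → ℂ := fun k => t * e * u k with hb
  have hav : av b = t * e * av u := by
    unfold av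
    rw [hb, ← Finset.mul_sum]
    ring
  have hbs : ∀ (s : ℝ) (k : Fin N), (1 : ℂ) - (s : ℂ) * b k =
      1 - ((t * s : ℝ) : ℂ) * (e * u k) := by
    intro s k
    simp only [hb]
    push_cast
    ring
  have hb1 : ∀ k : Fin N, (1 : ℂ) - b k = 1 - (t : ℂ) * (e * u k) := by
    intro k
    simp only [hb]
    ring
  have hid := hX N b (by omega)
  rw [hav] at hid
  rw [hid]
  have hexp : ∀ A B : ℂ, 1 - (1 - A - B) = A + B := fun A B => by ring
  rw [hexp]
  unfold XX
  refine (norm_add_le _ _).trans (add_le_add ?_ ?_)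
  · rw [norm_mul, norm_prod]
    apply mul_le_mul
    · apply le_of_eq
      have h1 : (1 : ℂ) - (t : ℂ) * e * av u = 1 - (t : ℂ) * (e * av u) := by ring
      rw [h1]
      rw [← Real.sqrt_sq (norm_nonneg (1 - (t : ℂ) * (e * av u))), XBD.normSq_one_sub, norm_mul, he,
        one_mul]
    · have h2 := XBD.amgm Finset.univ N (by simp) (by omega)
        (fun k => ‖1 - (t : ℂ) * (e * u k)‖) (fun _ _ => norm_nonneg _)
      rw [XBD.sum_sq u e he hN t, mul_div_cancel_left₀ _ hNpos.ne'] at h2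
      have h3 : ∏ k, ‖1 - b k‖ = ∏ k, ‖1 - (t : ℂ) * (e * u k)‖ :=
        Finset.prod_congr rfl fun k _ => by rw [hb1]
      rw [h3]
      exact h2
    · exact Finset.prod_nonneg fun _ _ => norm_nonneg _
    · exact Real.sqrt_nonneg _
  · rw [norm_mul]
    have hcont : Continuous fun x : ℝ => Real.sqrt (hh N (e * av u).re (sq u) x) ^ (N - 2) := by
      unfold hh
      fun_prop
    have hnorm : ‖∫ s in (0 : ℝ)..1, (s : ℂ) * ∑ k, ∑ j ∈ Finset.univ.erase k,
        (b k - b j) ^ 2 * ∏ l ∈ (Finset.univ.erase k).erase j, (1 - (s : ℂ) * b l)‖ ≤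
        ∫ s in (0 : ℝ)..1, s * ((t ^ 2 * (2 * (N : ℝ) ^ 2 * (sq u - ‖av u‖ ^ 2))) *
          Real.sqrt (hh N (e * av u).re (sq u) (t * s)) ^ (N - 2)) := by
      apply intervalIntegral.norm_integral_le_of_norm_le zero_le_one
      · refine Filter.Eventually.of_forall fun s hs => ?_
        have hs0 : 0 ≤ s := hs.1.le
        have hs1 : s ≤ 1 := hs.2
        have hx0 : 0 ≤ t * s := mul_nonneg ht0 hs0
        have hx1 : t * s ≤ 1 := by nlinarith
        rw [norm_mul, Complex.norm_real, Real.norm_eq_abs, abs_of_nonneg hs0]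
        apply mul_le_mul_of_nonneg_left _ hs0
        have hsum : (t ^ 2 * (2 * (N : ℝ) ^ 2 * (sq u - ‖av u‖ ^ 2))) *
            Real.sqrt (hh N (e * av u).re (sq u) (t * s)) ^ (N - 2) =
            ∑ k, ∑ j ∈ Finset.univ.erase k, (t ^ 2 * ‖u k - u j‖ ^ 2) *
              Real.sqrt (hh N (e * av u).re (sq u) (t * s)) ^ (N - 2) := by
          rw [← XBD.sum_diff u hN, Finset.mul_sum, Finset.sum_mul]
          refine Finset.sum_congr rfl fun k _ => ?_
          rw [Finset.mul_sum, Finset.sum_mul]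
        rw [hsum]
        refine (norm_sum_le _ _).trans (Finset.sum_le_sum fun k _ => ?_)
        refine (norm_sum_le _ _).trans (Finset.sum_le_sum fun j hj => ?_)
        rw [norm_mul, norm_prod]
        have h1 : ‖(b k - b j) ^ 2‖ = t ^ 2 * ‖u k - u j‖ ^ 2 := by
          have : b k - b j = t * e * (u k - u j) := by
            simp only [hb]; ring
          rw [this, norm_pow, norm_mul, norm_mul, he, Complex.norm_real, Real.norm_eq_abs,
            abs_of_nonneg ht0]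
          ring
        rw [h1]
        apply mul_le_mul_of_nonneg_left _ (by positivity)
        have h2 : ∏ l ∈ (Finset.univ.erase k).erase j, ‖1 - (s : ℂ) * b l‖ =
            ∏ l ∈ (Finset.univ.erase k).erase j, ‖1 - ((t * s : ℝ) : ℂ) * (e * u l)‖ :=
          Finset.prod_congr rfl fun l _ => by rw [hbs]
        rw [h2]
        exact XBD.prod_le u e he hu hN (t * s) hx0 hx1 k j hj
      · apply Continuous.intervalIntegrable
        exact continuous_id.mul (continuous_const.mul (hcont.comp (continuous_const.mul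
          continuous_id)))
    have hval : ∫ s in (0 : ℝ)..1, s * ((t ^ 2 * (2 * (N : ℝ) ^ 2 * (sq u - ‖av u‖ ^ 2))) *
          Real.sqrt (hh N (e * av u).re (sq u) (t * s)) ^ (N - 2)) =
        2 * (N : ℝ) * ((sq u - ‖av u‖ ^ 2) * JJ N (e * av u).re (sq u) t) := by
      unfold JJ
      rw [← XBD.integral_scale (fun x => Real.sqrt (hh N (e * av u).re (sq u) x) ^ (N - 2)) t]
      have : ∀ s : ℝ, s * ((t ^ 2 * (2 * (N : ℝ) ^ 2 * (sq u - ‖av u‖ ^ 2))) *
          Real.sqrt (hh N (e * av u).re (sq u) (t * s)) ^ (N - 2)) =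
          (t ^ 2 * (2 * (N : ℝ) ^ 2 * (sq u - ‖av u‖ ^ 2))) *
          (s * Real.sqrt (hh N (e * av u).re (sq u) (t * s)) ^ (N - 2)) := fun s => by ring
      simp only [this]
      rw [intervalIntegral.integral_const_mul]
      ring
    rw [hval] at hnorm
    have hn : ‖(1 : ℂ) / (2 * (N : ℂ))‖ = 1 / (2 * (N : ℝ)) := by
      rw [norm_div, norm_one, norm_mul, Complex.norm_natCast]
      norm_num
    rw [hn]
    refine (mul_le_mul_of_nonneg_left hnorm (by positivity)).trans (le_of_eq ?_)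
    field_simp

end Pool.Agent.Lib.MP_af3a4a_an.SV
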