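import Pool.Agent.Lib.MP_af3a4a_an.SV.Interfaces

/-!
# Module XID: the integral identity
-/

namespace Pool.Agent.Lib.MP_af3a4a_an.SV

open Finset MeasureTheory

namespace XID

theorem sum_swap {N : ℕ} (f : Fin N → Fin N → ℂ) :
    ∑ k, ∑ j ∈ univ.erase k, f k j = ∑ k, ∑ j ∈ univ.erase k, f j k := by
  refine Finset.sum_comm' ?_
  intro x y
  simp [eq_comm]

/-- the algebraic identity -/
theorem alg {N : ℕ} (b : Fin N → ℂ) (hN : 1 ≤ N) (s : ℂ) :
    (1 - s * av b) * ∑ k, (∏ l ∈ univ.erase k, (1 - s * b l)) * b k =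
      N * av b * ∏ k, (1 - s * b k) + s / (2 * N) * ∑ k, ∑ j ∈ univ.erase k, (b k - b j) ^ 2 *
          ∏ l ∈ (univ.erase k).erase j, (1 - s * b l) := by
  have hN0 : (N : ℂ) ≠ 0 := by
    have : (0 : ℕ) < N := hN
    exact_mod_cast this.ne'
  set B := av b with hB
  have hNB : (N : ℂ) * B = ∑ k, b k := by
    rw [hB, av]
    field_simp
  set P := ∏ k, (1 - s * b k) with hP
  set p : Fin N → ℂ := fun k => ∏ l ∈ univ.erase k, (1 - s * b l) with hp
  set q : Fin N → Fin N → ℂ := fun k j => ∏ l ∈ (univ.erase k).erase j, (1 - s * b l) with hq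
  have h1 : ∀ k, (1 - s * b k) * p k = P := fun k =>
    Finset.mul_prod_erase univ (fun l => 1 - s * b l) (mem_univ k)
  have h2 : ∀ k, ∀ j ∈ univ.erase k, (1 - s * b j) * q k j = p k := fun k j hj =>
    Finset.mul_prod_erase (univ.erase k) (fun l => 1 - s * b l) hj
  have hsym : ∀ k j, q k j = q j k := by
    intro k j
    simp only [hq]
    rw [Finset.erase_right_comm]
  -- the double sum
  set T := ∑ k, ∑ j ∈ univ.erase k, (b k - b j) * b k * ((1 - s * b j) * q k j) with hT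
  have hT1 : T = ∑ k, (N : ℂ) * (b k - B) * b k * p k := by
    rw [hT]
    refine Finset.sum_congr rfl fun k _ => ?_
    have h3 : ∑ j ∈ univ.erase k, (b k - b j) = N * (b k - B) := by
      have h4 : ∑ j, (b k - b j) = N * (b k - B) := by
        rw [Finset.sum_sub_distrib, Finset.sum_const, Finset.card_univ, Fintype.card_fin,
          nsmul_eq_mul, mul_sub, hNB]
      rw [← h4, ← Finset.add_sum_erase univ (fun j => b k - b j) (mem_univ k), sub_self, zero_add]
    rw [← h3]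
    simp only [Finset.sum_mul]
    refine Finset.sum_congr rfl fun j hj => ?_
    rw [h2 k j hj]
  have hT2 : 2 * T = ∑ k, ∑ j ∈ univ.erase k, (b k - b j) ^ 2 * q k j := by
    have h3 : T = ∑ k, ∑ j ∈ univ.erase k, (b j - b k) * b j * ((1 - s * b k) * q j k) := by
      rw [hT]
      exact sum_swap _
    have h4 : 2 * T = T + T := two_mul T
    rw [h4]
    nth_rewrite 2 [h3]
    rw [hT, ← Finset.sum_add_distrib]
    refine Finset.sum_congr rfl fun k _ => ?_
    rw [← Finset.sum_add_distrib]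
    refine Finset.sum_congr rfl fun j _ => ?_
    rw [hsym j k]
    ring
  have h5 : (1 - s * B) * ∑ k, p k * b k = ∑ k, b k * P + s * ∑ k, (b k - B) * b k * p k := by
    rw [Finset.mul_sum, Finset.mul_sum, ← Finset.sum_add_distrib]
    refine Finset.sum_congr rfl fun k _ => ?_
    rw [← h1 k]
    ring
  have h6 : (N : ℂ) * ∑ k, (b k - B) * b k * p k = T := by
    rw [hT1, Finset.mul_sum]
    refine Finset.sum_congr rfl fun k _ => ?_
    ring
  rw [h5, ← Finset.sum_mul, ← hNB, ← hT2, ← h6]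
  field_simp

theorem deriv {N : ℕ} (b : Fin N → ℂ) (hN : 1 ≤ N) (s : ℝ) :
    HasDerivAt (fun s : ℝ => (1 - (s : ℂ) * av b) * ∏ k, (1 - (s : ℂ) * b k))
      (-(((N : ℂ) + 1) * av b * ∏ k, (1 - (s : ℂ) * b k)) -
        (1 / (2 * (N : ℂ))) * ((s : ℂ) * ∑ k, ∑ j ∈ Finset.univ.erase k, (b k - b j) ^ 2 *
          ∏ l ∈ (Finset.univ.erase k).erase j, (1 - (s : ℂ) * b l))) s := by
  have h1 : ∀ (β : ℂ), HasDerivAt (fun x : ℝ => 1 - (x : ℂ) * β) (-β) s := by
    intro β
    have h := ((hasDerivAt_id (s : ℂ)).mul_const β).const_sub 1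
    simp only [id, one_mul] at h
    exact h.comp_ofReal
  have h2 := HasDerivAt.fun_finsetProd (u := (univ : Finset (Fin N)))
    (f := fun k (x : ℝ) => 1 - (x : ℂ) * b k) (f' := fun k => -b k) (x := s)
    (fun k _ => h1 (b k))
  have h3 := (h1 (av b)).mul h2
  have h4 := alg b hN (s : ℂ)
  have h5 : -av b * ∏ k, (1 - (s : ℂ) * b k) + (1 - (s : ℂ) * av b) *
      (∑ k, (∏ l ∈ univ.erase k, (1 - (s : ℂ) * b l)) • (-b k)) =
      (-(((N : ℂ) + 1) * av b * ∏ k, (1 - (s : ℂ) * b k)) -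
        (1 / (2 * (N : ℂ))) * ((s : ℂ) * ∑ k, ∑ j ∈ Finset.univ.erase k, (b k - b j) ^ 2 *
          ∏ l ∈ (Finset.univ.erase k).erase j, (1 - (s : ℂ) * b l))) := by
    simp only [smul_eq_mul, mul_neg, Finset.sum_neg_distrib]
    linear_combination -h4
  rw [← h5]
  exact h3

theorem cont_int {N : ℕ} (b : Fin N → ℂ) :
    Continuous fun s : ℝ => ∏ k, (1 - (s : ℂ) * b k) := by
  fun_prop

theorem cont_int2 {N : ℕ} (b : Fin N → ℂ) :
    Continuous fun s : ℝ => (s : ℂ) * ∑ k, ∑ j ∈ Finset.univ.erase k, (b k - b j) ^ 2 *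
          ∏ l ∈ (Finset.univ.erase k).erase j, (1 - (s : ℂ) * b l) := by
  fun_prop

end XID

/-- XID -/
theorem xid : XID_S := by
  intro N b hN
  have hc1 := XID.cont_int b
  have hc2 := XID.cont_int2 b
  have hd1 : Continuous fun s : ℝ => -(((N : ℂ) + 1) * av b * ∏ k, (1 - (s : ℂ) * b k)) :=
    (continuous_const.mul hc1).neg
  have hd2 : Continuous fun s : ℝ => (1 / (2 * (N : ℂ))) *
      ((s : ℂ) * ∑ k, ∑ j ∈ Finset.univ.erase k, (b k - b j) ^ 2 *
          ∏ l ∈ (Finset.univ.erase k).erase j, (1 - (s : ℂ) * b l)) :=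
    continuous_const.mul hc2
  have h := intervalIntegral.integral_eq_sub_of_hasDerivAt
    (f := fun s : ℝ => (1 - (s : ℂ) * av b) * ∏ k, (1 - (s : ℂ) * b k)) (a := 0) (b := 1)
    (fun s _ => XID.deriv b hN s) ((hd1.sub hd2).intervalIntegrable 0 1)
  rw [intervalIntegral.integral_sub (hd1.intervalIntegrable 0 1)
    (hd2.intervalIntegrable 0 1), intervalIntegral.integral_neg,
    intervalIntegral.integral_const_mul, intervalIntegral.integral_const_mul] at h
  simp only [Complex.ofReal_one, one_mul, Complex.ofReal_zero, zero_mul, sub_zero,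
    Finset.prod_const_one] at h
  linear_combination -h

end Pool.Agent.Lib.MP_af3a4a_an.SV
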