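import Pool.Agent.Lib.MP_af3a4a_an.SV.Interfaces
import Pool.Agent.Lib.MP_af3a4a_an.LN.MAJ
import Pool.Agent.Lib.MP_af3a4a_an.Core

/-!
# Module FAB (helper59): facts on the zeros of a normalised counterexample
-/

namespace Pool.Agent.Lib.MP_af3a4a_an.SV

open Finset MeasureTheory

namespace FAB

variable {N : ℕ} {a c : ℂ} {z w : Fin N → ℂ}

/-- the polynomial identity for the derivative -/
def HD (a : ℂ) (z w : Fin N → ℂ) : Prop :=
  ∀ x : ℂ, HasDerivAt (fun x : ℂ => (x - a) * ∏ j, (x - z j))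
    (((N : ℂ) + 1) * ∏ k, (x - w k)) x

lemma hd_of (hC : Cfg2 N z w c) : HD 0 z w := by
  intro x
  simpa using hC.hderiv x

lemma prod_eq (hC : HD a z w) : ∏ j, (a - z j) = ((N : ℂ) + 1) * ∏ k, (a - w k) := by
  have h1 : HasDerivAt (fun x : ℂ => x - a) 1 a := by
    simpa using (hasDerivAt_id a).sub_const a
  have h2 : DifferentiableAt ℂ (fun x : ℂ => ∏ j, (x - z j)) a := by
    refine DifferentiableAt.fun_finsetProd fun j _ => ?_
    exact (differentiableAt_id).sub_const (z j)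
  have h3 := h1.mul h2.hasDerivAt
  have h4 := (hC a).unique h3
  rw [h4]
  simp

lemma sum_eq (hN : 1 ≤ N) (hC : HD a z w) :
    ((N : ℂ) + 1) * ∑ k, w k = N * (a + ∑ j, z j) := by
  obtain ⟨M, rfl⟩ : ∃ M, N = M + 1 := ⟨N - 1, by omega⟩
  set P : Polynomial ℂ := (Polynomial.X - Polynomial.C a) * ∏ j, (Polynomial.X - Polynomial.C (z j))
    with hP
  set Q : Polynomial ℂ := ∏ k, (Polynomial.X - Polynomial.C (w k)) with hQ
  have hPQ : Polynomial.derivative P = Polynomial.C (((M + 1 : ℕ) : ℂ) + 1) * Q := by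
    refine Polynomial.funext fun x => ?_
    have h1 := P.hasDerivAt x
    have h2 := hC x
    have h3 : (fun x : ℂ => P.eval x) = fun x : ℂ => (x - a) * ∏ j, (x - z j) := by
      funext y
      simp [hP, Polynomial.eval_prod]
    have h4 : HasDerivAt (fun x : ℂ => (x - a) * ∏ j, (x - z j)) (P.derivative.eval x) x := by
      rw [← h3]
      exact h1
    rw [h4.unique h2]
    simp [hQ, Polynomial.eval_prod]
  have hPc : P.coeff (M + 1) = -(a + ∑ j, z j) := by
    have h1 : P = ∏ i : Fin (M + 1 + 1), (Polynomial.X - Polynomial.C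
        ((Fin.cons a z : Fin (M + 1 + 1) → ℂ) i)) := by
      rw [Fin.prod_univ_succ, hP]
      simp
    have h2 := Polynomial.prod_X_sub_C_coeff_card_pred (R := ℂ)
      (Finset.univ : Finset (Fin (M + 1 + 1))) (Fin.cons a z : Fin (M + 1 + 1) → ℂ) (by simp)
    rw [← h1] at h2
    simp only [Finset.card_univ, Fintype.card_fin, Nat.add_sub_cancel] at h2
    rw [h2, Fin.sum_univ_succ]
    simp
  have hQc : Q.coeff M = -∑ k, w k := by
    have h2 := Polynomial.prod_X_sub_C_coeff_card_pred (R := ℂ)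
      (Finset.univ : Finset (Fin (M + 1))) w (by simp)
    simp only [Finset.card_univ, Fintype.card_fin, Nat.add_sub_cancel] at h2
    exact h2
  have h5 := congrArg (fun p => Polynomial.coeff p M) hPQ
  simp only [Polynomial.coeff_derivative, Polynomial.coeff_C_mul] at h5
  rw [hPc, hQc] at h5
  push_cast at h5 ⊢
  linear_combination h5

open Polynomial in
lemma derivative_cfg (h : HD a z w) :
    derivative (∏ j : Fin (N + 1), (X - C ((Fin.cons a z : Fin (N + 1) → ℂ) j))) =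
      C ((N : ℂ) + 1) * ∏ k, (X - C (w k)) := by
  apply Polynomial.funext
  intro x
  have h1 := h x
  have h2 := (∏ j : Fin (N + 1), (X - C ((Fin.cons a z : Fin (N + 1) → ℂ) j))).hasDerivAt x
  have h3 : (fun y : ℂ => (∏ j : Fin (N + 1), (X - C ((Fin.cons a z : Fin (N + 1) → ℂ) j))).eval y)
      = fun y : ℂ => (y - a) * ∏ j, (y - z j) := by
    funext y
    rw [eval_prod, Fin.prod_univ_succ]
    simp
  rw [h3] at h2
  have h4 := h2.unique h1
  rw [h4, eval_mul, eval_C, eval_prod]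
  simp

open Polynomial in
lemma roots_cfg (h : HD a z w) :
    (derivative (∏ j : Fin (N + 1), (X - C ((Fin.cons a z : Fin (N + 1) → ℂ) j)))).roots =
      Finset.univ.val.map w := by
  have hn : ((N : ℂ) + 1) ≠ 0 := by exact_mod_cast Nat.succ_ne_zero N
  rw [derivative_cfg h, Polynomial.roots_C_mul _ hn, Finset.prod_eq_multiset_prod]
  have h1 : Multiset.map (fun k => X - C (w k)) Finset.univ.val =
      Multiset.map (fun y : ℂ => X - C y) (Multiset.map w Finset.univ.val) := by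
    rw [Multiset.map_map]
    rfl
  rw [h1, Polynomial.roots_multiset_prod_X_sub_C]

lemma maj (h : HD a z w) (φ : ℂ → ℝ) (hφ : ConvexOn ℝ Set.univ φ) (h0 : φ 0 = 0) :
    ((N : ℝ) + 1) * ∑ k, φ (w k) ≤ N * (φ a + ∑ j, φ (z j)) := by
  have h1 := LN.sum_critical_phi_le (N + 1) (Nat.succ_pos N) (Fin.cons a z) φ hφ h0
  rw [roots_cfg h, Multiset.map_map] at h1
  have h2 : (Multiset.map (φ ∘ w) Finset.univ.val).sum = ∑ k, φ (w k) := rfl
  rw [h2, Fin.sum_univ_succ] at h1
  simp only [Fin.cons_zero, Fin.cons_succ] at h1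
  have hN : (0 : ℝ) < (N : ℝ) + 1 := by positivity
  have h3 := mul_le_mul_of_nonneg_left h1 hN.le
  refine h3.trans (le_of_eq ?_)
  push_cast
  field_simp
  ring

/-- expansion of the square of the modulus around `c` -/
lemma normsq_expand (x c : ℂ) :
    ‖x‖ ^ 2 = ‖x - c‖ ^ 2 + 2 * ((x - c) * (starRingEnd ℂ) c).re + ‖c‖ ^ 2 := by
  have h : x = (x - c) + c := by ring
  conv_lhs => rw [h]
  rw [← Complex.normSq_eq_norm_sq, Complex.normSq_add, Complex.normSq_eq_norm_sq,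
    Complex.normSq_eq_norm_sq]
  ring

/-- sum of the expansions -/
lemma sum_normsq (x : Fin N → ℂ) (c : ℂ) :
    ∑ k, ‖x k‖ ^ 2 =
      ∑ k, ‖x k - c‖ ^ 2 + 2 * ((∑ k, x k - N * c) * (starRingEnd ℂ) c).re + N * ‖c‖ ^ 2 := by
  have h1 : ∀ k, ‖x k‖ ^ 2 = ‖x k - c‖ ^ 2 + 2 * ((x k - c) * (starRingEnd ℂ) c).re + ‖c‖ ^ 2 :=
    fun k => normsq_expand _ _
  rw [Finset.sum_congr rfl fun k _ => h1 k]
  rw [Finset.sum_add_distrib, Finset.sum_add_distrib, ← Finset.mul_sum, ← Complex.re_sum,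
    ← Finset.sum_mul, Finset.sum_sub_distrib]
  simp

lemma convex_phi (c : ℂ) : ConvexOn ℝ Set.univ fun x : ℂ => ‖x - c‖ ^ 2 - ‖c‖ ^ 2 := by
  have h1 : ConvexOn ℝ Set.univ fun x : ℂ => ‖x - c‖ := by
    have h2 := (convexOn_univ_norm (E := ℂ)).translate_left (-c)
    simpa [Function.comp_def, sub_eq_add_neg] using h2
  have h3 : ConvexOn ℝ Set.univ fun x : ℂ => ‖x - c‖ ^ 2 :=
    h1.pow (fun x _ => norm_nonneg _) 2
  have h4 := h3.add_const (-(‖c‖ ^ 2))
  refine h4.congr ?_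
  intro x _
  simp [sub_eq_add_neg]

end FAB

/-- facts on the zeros of a normalised counterexample -/
theorem fab : FAB_S := by
  intro N z w c hN hC
  have hNpos : (0 : ℝ) < N := by exact_mod_cast hN
  have hD := FAB.hd_of hC
  have hvar := hC.var
  have hcent := hC.cent
  have hN1 : ((N : ℂ) + 1) ≠ 0 := by exact_mod_cast Nat.succ_ne_zero N
  -- sum of the critical points
  have hsum : (N : ℂ) * c = ∑ k, w k := by
    have h1 := FAB.sum_eq hN hD
    rw [zero_add, ← hcent] at h1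
    apply mul_left_cancel₀ hN1
    rw [h1]
    ring
  -- product of the zeros
  have hprod : ∏ j, z j = ((N : ℂ) + 1) * ∏ k, w k := by
    have h1 := FAB.prod_eq hD
    simp only [zero_sub] at h1
    have h2 : ∀ x : Fin N → ℂ, ∏ j, (-x j) = (-1) ^ N * ∏ j, x j := by
      intro x
      have h3 : ∀ j, -x j = (-1) * x j := fun j => by ring
      simp_rw [h3]
      rw [Finset.prod_mul_distrib]
      simp
    rw [h2, h2] at h1
    have h4 : ((-1 : ℂ)) ^ N ≠ 0 := pow_ne_zero _ (by norm_num)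
    apply mul_left_cancel₀ h4
    rw [h1]
    ring
  -- norm of the sum of `z j - c`
  have hzc : ∑ j, (z j - c) = c := by
    rw [Finset.sum_sub_distrib, ← hcent]
    simp
    ring
  -- `R ^ 2 < N`
  have hR : ‖c‖ ^ 2 < N := by
    have h1 : ‖c‖ ≤ ∑ j, ‖z j - c‖ := by
      conv_lhs => rw [← hzc]
      exact norm_sum_le _ _
    have h2 : (∑ j, ‖z j - c‖) ^ 2 ≤ N * ∑ j, ‖z j - c‖ ^ 2 := by
      have := sq_sum_le_card_mul_sum_sq (s := (Finset.univ : Finset (Fin N)))
        (f := fun j => ‖z j - c‖)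
      simpa using this
    have h3 : ‖c‖ ^ 2 ≤ (∑ j, ‖z j - c‖) ^ 2 := pow_le_pow_left₀ (norm_nonneg _) h1 2
    nlinarith
  -- de Bruijn - Springer
  have hm : mm w ≤ ‖c‖ ^ 2 := by
    have h1 := FAB.maj hD (fun x => ‖x - c‖ ^ 2 - ‖c‖ ^ 2) (FAB.convex_phi c) (by simp)
    simp only [Finset.sum_sub_distrib, Finset.sum_const, Finset.card_univ, Fintype.card_fin,
      nsmul_eq_mul, zero_sub, norm_neg, sub_self, zero_add] at h1
    have h2 : ∑ k, ‖w k - c‖ ^ 2 < N := by
      have h3 : ((N : ℝ) + 1) * (∑ k, ‖w k - c‖ ^ 2 - N * ‖c‖ ^ 2) <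
          N * (((N : ℝ) + 1) * (1 - ‖c‖ ^ 2)) := by
        refine h1.trans_lt ?_
        apply mul_lt_mul_of_pos_left _ hNpos
        nlinarith
      have h4 : ((N : ℝ) + 1) * ∑ k, ‖w k - c‖ ^ 2 < ((N : ℝ) + 1) * N := by nlinarith
      exact lt_of_mul_lt_mul_left h4 (by positivity)
    have h5 := FAB.sum_normsq w c
    rw [← hsum, sub_self, zero_mul, Complex.zero_re, mul_zero, add_zero] at h5
    rw [mm, sq, h5]
    rw [sub_le_iff_le_add, one_div, inv_mul_le_iff₀ hNpos]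
    nlinarith
  refine ⟨hsum, hprod, hm, hR, ?_⟩
  -- the bound (A)
  have h1 := amgm N (fun j => ‖z j‖ ^ 2) (fun j => by positivity)
  have h2 : ∏ j, ‖z j‖ ^ 2 = ((N + 1) * EE w) ^ 2 := by
    rw [Finset.prod_pow, ← norm_prod, hprod, norm_mul, norm_prod]
    have h3 : ‖((N : ℂ) + 1)‖ = (N : ℝ) + 1 := by
      have : ((N : ℂ) + 1) = (((N : ℝ) + 1 : ℝ) : ℂ) := by push_cast; ring
      rw [this, Complex.norm_real, Real.norm_of_nonneg (by positivity)]
    rw [h3]
    rfl
  rw [h2] at h1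
  refine h1.trans_lt ?_
  have h5 := FAB.sum_normsq z c
  have h6 : (∑ k, z k - (N : ℂ) * c) * (starRingEnd ℂ) c = ((‖c‖ ^ 2 : ℝ) : ℂ) := by
    rw [← hcent]
    have : ((N : ℂ) + 1) * c - N * c = c := by ring
    rw [this, Complex.mul_conj, Complex.normSq_eq_norm_sq]
  rw [h6, Complex.ofReal_re] at h5
  have h7 : ∑ j, ‖z j‖ ^ 2 < ((N : ℝ) + 1) * (1 + ‖c‖ ^ 2) := by
    rw [h5]
    nlinarith
  apply pow_lt_pow_left₀ _ (by positivity) (by omega)
  rw [one_div, inv_mul_lt_iff₀ hNpos]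
  refine h7.trans_le (le_of_eq ?_)
  field_simp

end Pool.Agent.Lib.MP_af3a4a_an.SV
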