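import Pool.Agent.Lib.MP_af3a4a_an.SV.Interfaces

/-!
# Module FINT: the value of `F` as an integral of `F'`, and the strict AM-GM bound
-/

namespace Pool.Agent.Lib.MP_af3a4a_an.SV

open Finset MeasureTheory

namespace FINT

/-- AM-GM with squares -/
theorem amgm {N : ℕ} (hN : 1 ≤ N) (x : Fin N → ℝ) (hx : ∀ j, 0 ≤ x j) :
    ∏ j, x j ≤ ((1 / (N : ℝ)) * ∑ j, x j) ^ N := by
  have hN0 : (0 : ℝ) < N := by exact_mod_cast hN
  have h := Real.geom_mean_le_arith_mean_weighted univ (fun _ : Fin N => 1 / (N : ℝ)) x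
    (fun _ _ => by positivity)
    (by rw [Finset.sum_const, Finset.card_univ, Fintype.card_fin, nsmul_eq_mul]; field_simp)
    (fun j _ => hx j)
  rw [← Finset.mul_sum] at h
  have h0 : 0 ≤ ∏ j, x j ^ (1 / (N : ℝ)) := Finset.prod_nonneg fun j _ => Real.rpow_nonneg (hx j) _
  have h1 := pow_le_pow_left₀ h0 h N
  have h2 : (∏ j, x j ^ (1 / (N : ℝ))) ^ N = ∏ j, x j := by
    rw [← Finset.prod_pow]
    refine Finset.prod_congr rfl fun j _ => ?_
    rw [← Real.rpow_natCast, ← Real.rpow_mul (hx j), one_div, inv_mul_cancel₀ hN0.ne',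
      Real.rpow_one]
  rw [h2] at h1
  exact h1

theorem int_eq {N : ℕ} {z w : Fin N → ℂ} {c : ℂ} (hC : Cfg2 N z w c) (y : ℂ) :
    y * ∏ j, (y - z j) = ((N : ℂ) + 1) * y * (∏ k, (-w k)) *
      ∫ s in (0 : ℝ)..1, ∏ k, (1 - (s : ℂ) * (y * uu w k)) := by
  have hw : ∀ k, w k ≠ 0 := by
    intro k h
    have := hC.far k
    rw [h, norm_zero] at this
    linarith
  have hd : ∀ s : ℝ, HasDerivAt (fun s : ℝ => ((s : ℂ) * y) * ∏ j, ((s : ℂ) * y - z j))
      (((N : ℂ) + 1) * y * (∏ k, (-w k)) * ∏ k, (1 - (s : ℂ) * (y * uu w k))) s := by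
    intro s
    have h1 := hC.hderiv ((s : ℂ) * y)
    have h2 : HasDerivAt (fun x : ℂ => x * y) y (s : ℂ) := by
      simpa using (hasDerivAt_id (s : ℂ)).mul_const y
    have h3 := (h1.comp (s : ℂ) h2).comp_ofReal
    have h4 : ((N : ℂ) + 1) * (∏ k, ((s : ℂ) * y - w k)) * y =
        ((N : ℂ) + 1) * y * (∏ k, (-w k)) * ∏ k, (1 - (s : ℂ) * (y * uu w k)) := by
      have h5 : ∏ k, ((s : ℂ) * y - w k) = (∏ k, (-w k)) * ∏ k, (1 - (s : ℂ) * (y * uu w k)) := by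
        rw [← Finset.prod_mul_distrib]
        refine Finset.prod_congr rfl fun k _ => ?_
        simp only [uu]
        field_simp [hw k]
        ring
      rw [h5]
      ring
    rw [← h4]
    exact h3
  have hc : Continuous fun s : ℝ => ((N : ℂ) + 1) * y * (∏ k, (-w k)) *
      ∏ k, (1 - (s : ℂ) * (y * uu w k)) := by
    fun_prop
  have h := intervalIntegral.integral_eq_sub_of_hasDerivAt (a := 0) (b := 1) (fun s _ => hd s)
    (hc.intervalIntegrable 0 1)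
  rw [intervalIntegral.integral_const_mul] at h
  simp only [Complex.ofReal_one, one_mul, Complex.ofReal_zero, zero_mul, sub_zero] at h
  exact h.symm

theorem sum_sq {N : ℕ} {z w : Fin N → ℂ} {c : ℂ} (hC : Cfg2 N z w c) (y : ℂ) :
    ∑ j, ‖y - z j‖ ^ 2 = ‖c‖ ^ 2 + ∑ j, ‖z j - c‖ ^ 2 + ((N : ℝ) + 1) * ‖c - y‖ ^ 2 -
      ‖y‖ ^ 2 := by
  have key : ∀ v : ℂ, ‖y - v‖ ^ 2 = ‖v - c‖ ^ 2 + ‖c - y‖ ^ 2 +
      2 * ((v - c) * (starRingEnd ℂ) (c - y)).re := by
    intro v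
    have h1 : y - v = -((v - c) + (c - y)) := by ring
    rw [h1, norm_neg, ← Complex.normSq_eq_norm_sq, ← Complex.normSq_eq_norm_sq,
      ← Complex.normSq_eq_norm_sq, Complex.normSq_add]
  have h0 := key 0
  rw [sub_zero, zero_sub, norm_neg] at h0
  have hs : ∑ j, (z j - c) = c := by
    rw [Finset.sum_sub_distrib, ← hC.cent, Finset.sum_const, Finset.card_univ, Fintype.card_fin,
      nsmul_eq_mul]
    ring
  have h1 : ∑ j, ‖y - z j‖ ^ 2 = ∑ j, ‖z j - c‖ ^ 2 + N * ‖c - y‖ ^ 2 +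
      2 * (c * (starRingEnd ℂ) (c - y)).re := by
    rw [Finset.sum_congr rfl fun j _ => key (z j), Finset.sum_add_distrib, Finset.sum_add_distrib,
      Finset.sum_const, Finset.card_univ, Fintype.card_fin, nsmul_eq_mul, ← Finset.mul_sum,
      ← Complex.re_sum, ← Finset.sum_mul, hs]
  rw [h1]
  have h2 : (-c * (starRingEnd ℂ) (c - y)).re = -(c * (starRingEnd ℂ) (c - y)).re := by
    rw [neg_mul, Complex.neg_re]
  rw [h2] at h0
  linarith

end FINT

/-- FINT -/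
theorem fint : FINT_S := by
  intro N z w c hN hC y
  have hN0 : (0 : ℝ) < N := by exact_mod_cast hN
  constructor
  · have h := congrArg norm (FINT.int_eq hC y)
    rw [norm_mul, norm_prod, norm_mul, norm_mul, norm_mul, norm_prod] at h
    rw [h]
    have h1 : ‖(N : ℂ) + 1‖ = (N : ℝ) + 1 := by
      have : (N : ℂ) + 1 = ((N + 1 : ℕ) : ℂ) := by push_cast; ring
      rw [this, Complex.norm_natCast]
      push_cast
      ring
    have h2 : ∏ k, ‖-w k‖ = EE w := by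
      unfold EE
      refine Finset.prod_congr rfl fun k _ => norm_neg _
    rw [h1, h2]
    ring
  · have h1 := FINT.amgm hN (fun j => ‖y - z j‖ ^ 2) (fun j => by positivity)
    have h2 := FINT.sum_sq hC y
    have h3 := hC.var
    have hA : (1 / (N : ℝ)) * ∑ j, ‖y - z j‖ ^ 2 < ((N + 1) * (1 + ‖c - y‖ ^ 2) - ‖y‖ ^ 2) / N := by
      rw [one_div, inv_mul_eq_div, div_lt_div_iff_of_pos_right hN0, h2]
      linarith
    have hA0 : 0 ≤ (1 / (N : ℝ)) * ∑ j, ‖y - z j‖ ^ 2 := by positivity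
    set A := ((N + 1) * (1 + ‖c - y‖ ^ 2) - ‖y‖ ^ 2) / N with hAd
    have h4 : (∏ j, ‖y - z j‖) ^ 2 < (Real.sqrt A ^ N) ^ 2 := by
      calc (∏ j, ‖y - z j‖) ^ 2 = ∏ j, ‖y - z j‖ ^ 2 := by rw [Finset.prod_pow]
        _ ≤ ((1 / (N : ℝ)) * ∑ j, ‖y - z j‖ ^ 2) ^ N := h1
        _ < A ^ N := pow_lt_pow_left₀ hA hA0 (by omega)
        _ = (Real.sqrt A ^ N) ^ 2 := by
          rw [← pow_mul, mul_comm N 2, pow_mul, Real.sq_sqrt (hA0.trans hA.le)]
    exact lt_of_pow_lt_pow_left₀ 2 (by positivity) h4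

end Pool.Agent.Lib.MP_af3a4a_an.SV
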