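import Pool.Agent.Lib.MP_af3a4a_an.SV.Interfaces
import Pool.Agent.Lib.MP_af3a4a_an.Core

/-!
# Module NORM: reduction to a normalised configuration
-/

namespace Pool.Agent.Lib.MP_af3a4a_an.SV

open Finset MeasureTheory Set Polynomial

namespace NORM

lemma exists_fin_enum' (s : Multiset ℂ) {N : ℕ} (hN : s.card = N) :
    ∃ ζ : Fin N → ℂ, s = (Finset.univ : Finset (Fin N)).val.map ζ := by
  subst hN
  obtain ⟨l, rfl⟩ : ∃ l : List ℂ, s = (l : Multiset ℂ) := ⟨s.toList, by simp⟩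
  refine ⟨fun k => l.get (Fin.cast (by simp) k), ?_⟩
  have h1 : (Finset.univ : Finset (Fin (l : Multiset ℂ).card)).val =
      ((List.finRange (l : Multiset ℂ).card : List _) : Multiset _) := rfl
  rw [h1, Multiset.map_coe, ← List.ofFn_eq_map]
  congr 1
  exact (List.ofFn_get l).symm

/-- the sum of the squared distances is smallest at the centroid -/
lemma centroid_le {n : ℕ} (hn : 0 < n) (z : Fin n → ℂ) (c : ℂ) :
    ∑ j, ‖z j - (1 / (n : ℂ)) * ∑ i, z i‖ ^ 2 ≤ ∑ j, ‖z j - c‖ ^ 2 := by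
  set b := (1 / (n : ℂ)) * ∑ i, z i with hb
  have hn0 : (n : ℂ) ≠ 0 := by exact_mod_cast hn.ne'
  have hsum : ∑ j, (z j - b) = 0 := by
    rw [Finset.sum_sub_distrib, Finset.sum_const, Finset.card_univ, Fintype.card_fin,
      nsmul_eq_mul, hb]
    field_simp
    simp
  have h1 : ∀ j, ‖z j - c‖ ^ 2 = ‖z j - b‖ ^ 2 +
      2 * ((z j - b) * (starRingEnd ℂ) (b - c)).re + ‖b - c‖ ^ 2 := by
    intro j
    have e : z j - c = (z j - b) + (b - c) := by ring
    rw [e, ← Complex.normSq_eq_norm_sq, ← Complex.normSq_eq_norm_sq, ← Complex.normSq_eq_norm_sq,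
      Complex.normSq_add]
    ring
  have h2 : ∑ j, ‖z j - c‖ ^ 2 = ∑ j, ‖z j - b‖ ^ 2 + n * ‖b - c‖ ^ 2 := by
    rw [Finset.sum_congr rfl fun j _ => h1 j, Finset.sum_add_distrib, Finset.sum_add_distrib,
      ← Finset.mul_sum, ← Complex.re_sum, ← Finset.sum_mul, hsum]
    simp
  rw [h2]
  have : 0 ≤ (n : ℝ) * ‖b - c‖ ^ 2 := by positivity
  linarith

end NORM

theorem norm : NORM_S := by
  intro h0 n hn z p hp c k
  obtain ⟨N, rfl⟩ : ∃ N, n = N + 1 := ⟨n - 1, by omega⟩
  have hN1 : 1 ≤ N := by omega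
  by_contra hcon
  push Not at hcon
  set P : ℂ[X] := ∏ j : Fin (N + 1), (X - C (z j)) with hP
  set σ := ((1 / ((N + 1 : ℕ) : ℝ)) * ∑ j : Fin (N + 1), ‖z j - c‖ ^ p) ^ (1 / p) with hσ
  have hσ0 : 0 ≤ σ := by rw [hσ]; positivity
  have hp0 : 0 < p := by linarith
  -- means
  have hmean : 1 / ((N + 1 : ℕ) : ℝ) * ∑ j : Fin (N + 1), ‖z j - c‖ ^ 2 ≤ σ ^ 2 := by
    have h3 := Real.arith_mean_le_rpow_mean (Finset.univ : Finset (Fin (N + 1)))
      (fun _ => 1 / ((N + 1 : ℕ) : ℝ)) (fun j => ‖z j - c‖ ^ 2) (fun _ _ => by positivity)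
      (by
        rw [Finset.sum_const, Finset.card_univ, Fintype.card_fin, nsmul_eq_mul]
        field_simp) (fun _ _ => by positivity) (show (1 : ℝ) ≤ p / 2 by linarith)
    rw [← Finset.mul_sum, ← Finset.mul_sum] at h3
    have e1 : ∀ j, (‖z j - c‖ ^ 2) ^ (p / 2) = ‖z j - c‖ ^ p := by
      intro j
      rw [← Real.rpow_natCast, ← Real.rpow_mul (norm_nonneg _)]
      congr 1
      push_cast
      ring
    rw [Finset.sum_congr rfl fun j _ => e1 j] at h3
    have e2 : (1 / ((N + 1 : ℕ) : ℝ) * ∑ j : Fin (N + 1), ‖z j - c‖ ^ p) ^ (1 / (p / 2)) =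
        σ ^ 2 := by
      rw [hσ, ← Real.rpow_natCast, ← Real.rpow_mul (by positivity)]
      congr 1
      push_cast
      field_simp
    rw [e2] at h3
    exact h3
  have hd : derivative P ≠ 0 := by
    intro h
    have := nd_deriv z
    rw [← hP, h, natDegree_zero] at this
    omega
  -- enumeration of the critical points
  have hcard : (derivative P).roots.card = N := by
    have := (IsAlgClosed.splits (derivative P)).natDegree_eq_card_roots
    rw [← this, hP, nd_deriv z]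
    simp
  obtain ⟨ω, hω⟩ := NORM.exists_fin_enum' _ hcard
  have hmem : ∀ l, (derivative P).IsRoot (ω l) := by
    intro l
    apply isRoot_of_mem_roots
    rw [hω]
    exact Multiset.mem_map_of_mem _ (by simp)
  have hD : ∀ x, (derivative P).eval x = ((N : ℂ) + 1) * ∏ l, (x - ω l) := by
    intro x
    rw [(IsAlgClosed.splits (derivative P)).eval_eq_prod_roots, hP, lc_deriv z (by omega)]
    rw [← hP]
    conv_lhs => rw [hω, Multiset.map_map]
    push_cast
    rfl
  -- the minimal distance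
  obtain ⟨l0, -, hl0⟩ := Finset.exists_min_image (Finset.univ : Finset (Fin N))
    (fun l => ‖z k - ω l‖) ⟨⟨0, by omega⟩, Finset.mem_univ _⟩
  set r := ‖z k - ω l0‖ with hr
  have hrσ : σ < r := hcon (ω l0) (hmem l0)
  have hr0 : 0 < r := lt_of_le_of_lt hσ0 hrσ
  have hrC : (r : ℂ) ≠ 0 := by exact_mod_cast hr0.ne'
  have hnR : (0 : ℝ) < ((N + 1 : ℕ) : ℝ) := by positivity
  have hnC : ((N : ℂ) + 1) ≠ 0 := by exact_mod_cast (Nat.succ_ne_zero N)
  set b := (1 / ((N + 1 : ℕ) : ℂ)) * ∑ i, z i with hb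
  refine h0 N (fun j => (z (k.succAbove j) - z k) / r) (fun l => (ω l - z k) / r)
    ((b - z k) / r) hN1 ⟨?_, ?_, ?_, ?_⟩
  · intro x
    -- the polynomial
    have h1 : ∀ y : ℂ, y * ∏ j, (y - (z (k.succAbove j) - z k) / r) =
        ((r : ℂ) ^ (N + 1))⁻¹ * P.eval (z k + r * y) := by
      intro y
      rw [hP, eval_prod, Fin.prod_univ_succAbove _ k]
      simp only [eval_sub, eval_X, eval_C]
      have e1 : z k + r * y - z k = r * y := by ring
      have e2 : ∏ j, (z k + r * y - z (k.succAbove j)) =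
          (r : ℂ) ^ N * ∏ j, (y - (z (k.succAbove j) - z k) / r) := by
        have : (r : ℂ) ^ N = ∏ _j : Fin N, (r : ℂ) := by simp
        rw [this, ← Finset.prod_mul_distrib]
        refine Finset.prod_congr rfl fun j _ => ?_
        field_simp
        ring
      rw [e1, e2]
      have e3 : (r : ℂ) ^ (N + 1) ≠ 0 := pow_ne_zero _ hrC
      rw [eq_comm, inv_mul_eq_div, div_eq_iff e3, pow_succ]
      ring
    have h2 : HasDerivAt (fun y : ℂ => ((r : ℂ) ^ (N + 1))⁻¹ * P.eval (z k + r * y))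
        (((r : ℂ) ^ (N + 1))⁻¹ * ((derivative P).eval (z k + r * x) * r)) x := by
      have h3 : HasDerivAt (fun y : ℂ => z k + r * y) r x := by
        simpa using ((hasDerivAt_id x).const_mul (r : ℂ)).const_add (z k)
      exact ((P.hasDerivAt (z k + r * x)).comp x h3).const_mul _
    have h3 : ((r : ℂ) ^ (N + 1))⁻¹ * ((derivative P).eval (z k + r * x) * r) =
        ((N : ℂ) + 1) * ∏ l, (x - (ω l - z k) / r) := by
      rw [hD]
      have e2 : ∏ l, (z k + r * x - ω l) = (r : ℂ) ^ N * ∏ l, (x - (ω l - z k) / r) := by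
        have : (r : ℂ) ^ N = ∏ _j : Fin N, (r : ℂ) := by simp
        rw [this, ← Finset.prod_mul_distrib]
        refine Finset.prod_congr rfl fun j _ => ?_
        field_simp
        ring
      have e3 : (r : ℂ) ^ (N + 1) ≠ 0 := pow_ne_zero _ hrC
      rw [e2, inv_mul_eq_div, div_eq_iff e3, pow_succ]
      ring
    rw [← h3]
    have h4 : (fun y : ℂ => y * ∏ j, (y - (z (k.succAbove j) - z k) / r)) =
        fun y : ℂ => ((r : ℂ) ^ (N + 1))⁻¹ * P.eval (z k + r * y) := funext h1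
    rw [h4]
    exact h2
  · intro l
    rw [norm_div, Complex.norm_real, Real.norm_of_nonneg hr0.le, le_div_iff₀ hr0, one_mul,
      norm_sub_rev]
    exact hl0 l (Finset.mem_univ l)
  · have h1 : ∑ j : Fin N, (z (k.succAbove j) - z k) / (r : ℂ) =
        (∑ i, z i - ((N : ℂ) + 1) * z k) / r := by
      rw [← Finset.sum_div, Finset.sum_sub_distrib, Finset.sum_const, Finset.card_univ,
        Fintype.card_fin, nsmul_eq_mul, Fin.sum_univ_succAbove _ k]
      ring
    rw [h1, hb]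
    push_cast
    field_simp
  · have h1 : ‖(b - z k) / (r : ℂ)‖ ^ 2 +
        ∑ j, ‖(z (k.succAbove j) - z k) / (r : ℂ) - (b - z k) / (r : ℂ)‖ ^ 2 =
        (∑ j, ‖z j - b‖ ^ 2) / r ^ 2 := by
      rw [Fin.sum_univ_succAbove _ k, add_div, Finset.sum_div]
      congr 1
      · rw [norm_div, Complex.norm_real, Real.norm_of_nonneg hr0.le, div_pow, norm_sub_rev]
      · refine Finset.sum_congr rfl fun j _ => ?_
        have e : (z (k.succAbove j) - z k) / (r : ℂ) - (b - z k) / (r : ℂ) =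
            (z (k.succAbove j) - b) / r := by ring
        rw [e, norm_div, Complex.norm_real, Real.norm_of_nonneg hr0.le, div_pow]
    rw [h1, div_lt_iff₀ (by positivity)]
    have h2 := NORM.centroid_le (Nat.succ_pos N) z c
    have h3 : ∑ j, ‖z j - c‖ ^ 2 ≤ ((N + 1 : ℕ) : ℝ) * σ ^ 2 := by
      rw [one_div, inv_mul_le_iff₀ hnR] at hmean
      exact hmean
    have h4 : σ ^ 2 < r ^ 2 := pow_lt_pow_left₀ hrσ hσ0 two_ne_zero
    have h5 : ((N + 1 : ℕ) : ℝ) * σ ^ 2 < ((N + 1 : ℕ) : ℝ) * r ^ 2 :=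
      mul_lt_mul_of_pos_left h4 hnR
    push_cast at h3 h5
    exact lt_of_le_of_lt (h2.trans h3) h5

end Pool.Agent.Lib.MP_af3a4a_an.SV
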