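import Mathlib

/-!
# Borcea's inequality for `p ≥ 2` and all degrees (contains Sendov's conjecture): definitions

`n = N + 1`, `F x = x ∏ (x - z j)`, `F' x = (N+1) ∏ (x - w k)`, `u_k = 1/w_k`.
-/

namespace Pool.Agent.Lib.MP_af3a4a_an.SV

open Finset MeasureTheory

/-- A counterexample, normalised: `0` is a zero, all critical points have modulus at least one,
and the sum of the squared distances of the zeros to their centroid `c` is less than `N + 1`. -/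
structure Cfg2 (N : ℕ) (z w : Fin N → ℂ) (c : ℂ) : Prop where
  hderiv : ∀ x : ℂ, HasDerivAt (fun x : ℂ => x * ∏ j, (x - z j))
    (((N : ℂ) + 1) * ∏ k, (x - w k)) x
  far : ∀ k, 1 ≤ ‖w k‖
  cent : ((N : ℂ) + 1) * c = ∑ j, z j
  var : ‖c‖ ^ 2 + ∑ j, ‖z j - c‖ ^ 2 < (N : ℝ) + 1

/-- `u_k = 1 / w_k` -/
noncomputable def uu {N : ℕ} (w : Fin N → ℂ) : Fin N → ℂ := fun k => (w k)⁻¹

/-- mean of a complex vector -/
noncomputable def av {N : ℕ} (b : Fin N → ℂ) : ℂ := (1 / (N : ℂ)) * ∑ k, b k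

/-- mean of the squared moduli of a vector -/
noncomputable def sq {N : ℕ} (b : Fin N → ℂ) : ℝ := (1 / (N : ℝ)) * ∑ k, ‖b k‖ ^ 2

/-- `r = |mean u|` -/
noncomputable def rr {N : ℕ} (w : Fin N → ℂ) : ℝ := ‖av (uu w)‖

/-- `S = mean |u|^2` -/
noncomputable def SS {N : ℕ} (w : Fin N → ℂ) : ℝ := sq (uu w)

/-- `m = mean (|w|^2 - 1)` -/
noncomputable def mm {N : ℕ} (w : Fin N → ℂ) : ℝ := sq w - 1

/-- `E = ∏ |w|` -/
noncomputable def EE {N : ℕ} (w : Fin N → ℂ) : ℝ := ∏ k, ‖w k‖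

/-- `d = |c - conj (mean u)|` -/
noncomputable def dd {N : ℕ} (w : Fin N → ℂ) (c : ℂ) : ℝ :=
  ‖c - (starRingEnd ℂ) (av (uu w))‖

/-- `h(x) = 1 - 2 ρ' x + S' x^2`, `ρ' = (N ρ - 2)/(N - 2)`, `S' = (N S - 2)/(N - 2)` -/
noncomputable def hh (N : ℕ) (ρ S x : ℝ) : ℝ :=
  1 - 2 * ((N * ρ - 2) / (N - 2)) * x + ((N * S - 2) / (N - 2)) * x ^ 2

/-- `J(y) = N ∫_0^y x h(x)^((N-2)/2) dx` -/
noncomputable def JJ (N : ℕ) (ρ S y : ℝ) : ℝ :=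
  N * ∫ x in (0 : ℝ)..y, x * Real.sqrt (hh N ρ S x) ^ (N - 2)

/-- upper bound of `|1 - (N+1) mean(u) ∫_0^y ∏ (1 - x u_k) dx|` -/
noncomputable def XX (N : ℕ) (ρ r S y : ℝ) : ℝ :=
  Real.sqrt (1 - 2 * y * ρ + y ^ 2 * r ^ 2) * Real.sqrt (1 - 2 * y * ρ + y ^ 2 * S) ^ N
    + (S - r ^ 2) * JJ N ρ S y

/-- the inequalities that hold for every `w` with `|w_k| ≥ 1` and `c = mean w` -/
structure WFacts (N : ℕ) (r d R S m E : ℝ) : Prop where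
  r0 : 0 ≤ r
  d0 : 0 ≤ d
  R0 : 0 ≤ R
  rS : r ^ 2 ≤ S
  S1 : S ≤ 1
  Rle : R ≤ r + d
  dle : d ≤ R + r
  m0 : 0 ≤ m
  dm : d ^ 2 ≤ m * (1 - S)
  mS : 1 ≤ S * (1 + m)
  E1 : 1 ≤ E
  c1 : N * d ≤ E - 1 / E
  c6 : N * d ^ 2 ≤ Real.log E * (m + 1 - S)
  c7 : N * d ^ 2 ≤ 2 * m * Real.log E
  c8 : 1 - 2 / N * Real.log E ≤ S
  tan : ∀ A B C : ℝ, 0 ≤ A → 0 ≤ B →
    (∀ x : ℝ, 1 ≤ x → A * (x - 1 / x) + B * (x - 1) - C * (x ^ 2 - 1) ≤ Real.log x) →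
    N * (A * d + B * (r + d - 1) - C * m) ≤ Real.log E
  tanR : ∀ B C : ℝ, 0 ≤ B →
    (∀ x : ℝ, 1 ≤ x → B * (x - 1) - C * (x ^ 2 - 1) ≤ Real.log x) →
    N * (B * (R - 1) - C * m) ≤ Real.log E

/-- all real inequalities available for a counterexample with `N ≥ 3` -/
structure BFacts (N : ℕ) (r d R S m E : ℝ) : Prop extends WFacts N r d R S m E where
  mR : m ≤ R ^ 2
  RN : R ^ 2 < N
  hA : ((N + 1) * E) ^ 2 < ((N + 1) / N * (1 + R ^ 2)) ^ N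
  hpos : ∀ x : ℝ, 0 ≤ x → x ≤ 1 → 0 ≤ hh N r S x
  /-- direction of `conj (mean u)` -/
  key : ∀ y : ℝ, 0 < y → y ≤ r →
    E * (1 - XX N r r S y) < r * y * Real.sqrt (((N + 1) * (1 + (d + r - y) ^ 2) - y ^ 2) / N) ^ N
  /-- direction of `c`, `y = 1` -/
  keyB : 0 < r → 0 < R →
    E * (1 - XX N ((R ^ 2 + r ^ 2 - d ^ 2) / (2 * R)) r S 1) <
      r * Real.sqrt (((N + 1) * (1 + (R - 1) ^ 2) - 1) / N) ^ N

end Pool.Agent.Lib.MP_af3a4a_an.SV
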