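import Pool.Agent.Lib.MP_af3a4a_an.SV.Defs

/-!
# Borcea's inequality for `p ≥ 2`, all degrees: statements of the modules

Every `X_S` is a proposition, proved in the module `X` (file `SV/X.lean`) as `theorem x : X_S`, or,
if the module uses other modules, as `theorem x (h : Y_S) ... : X_S`. Mathematics: `SV/Paper.md`.
-/

namespace Pool.Agent.Lib.MP_af3a4a_an.SV

open Finset MeasureTheory Polynomial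

/-! ## A. Complex analysis and algebra -/

/-- reduction of the theorem to normalised configurations -/
def NORM_S : Prop := (∀ (N : ℕ) (z w : Fin N → ℂ) (c : ℂ), 1 ≤ N → ¬ Cfg2 N z w c) →
  ∀ (n : ℕ), 2 ≤ n → ∀ (z : Fin n → ℂ) (p : ℝ), 2 ≤ p → ∀ (c : ℂ) (k : Fin n),
      ∃ w : ℂ,
        (Polynomial.derivative (∏ j : Fin n, (Polynomial.X - Polynomial.C (z j)))).IsRoot w ∧
        ‖z k - w‖ ≤ ((1 / (n : ℝ)) * ∑ j : Fin n, ‖z j - c‖ ^ p) ^ (1 / p)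

/-- facts on the zeros: sum and product of the critical points, de Bruijn - Springer for
`|x - c|^2`, the bound (A), and `R^2 < N` -/
def FAB_S : Prop := ∀ (N : ℕ) (z w : Fin N → ℂ) (c : ℂ), 1 ≤ N → Cfg2 N z w c →
  (N : ℂ) * c = ∑ k, w k ∧ ∏ j, z j = ((N : ℂ) + 1) * ∏ k, w k ∧
  mm w ≤ ‖c‖ ^ 2 ∧ ‖c‖ ^ 2 < N ∧
  ((N + 1) * EE w) ^ 2 < (((N : ℝ) + 1) / N * (1 + ‖c‖ ^ 2)) ^ N

/-- the inequalities for points outside the unit disc -/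
def WF_S : Prop := ∀ (N : ℕ) (w : Fin N → ℂ) (c : ℂ), 1 ≤ N → (∀ k, 1 ≤ ‖w k‖) →
  (N : ℂ) * c = ∑ k, w k → WFacts N (rr w) (dd w c) ‖c‖ (SS w) (mm w) (EE w)

/-- the identity for `(N+1) mean(b) ∫ ∏ (1 - s b_k) ds` -/
def XID_S : Prop := ∀ (N : ℕ) (b : Fin N → ℂ), 1 ≤ N →
  ((N : ℂ) + 1) * av b * ∫ s in (0 : ℝ)..1, ∏ k, (1 - (s : ℂ) * b k) =
    1 - (1 - av b) * ∏ k, (1 - b k) -
      (1 / (2 * (N : ℂ))) * ∫ s in (0 : ℝ)..1, (s : ℂ) *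
        ∑ k, ∑ j ∈ Finset.univ.erase k, (b k - b j) ^ 2 *
          ∏ l ∈ (Finset.univ.erase k).erase j, (1 - (s : ℂ) * b l)

/-- the bound of the error term -/
def XBD_S : Prop := ∀ (N : ℕ) (u : Fin N → ℂ) (e : ℂ) (t : ℝ), 3 ≤ N → (∀ k, ‖u k‖ ≤ 1) →
  ‖e‖ = 1 → 0 ≤ t → t ≤ 1 →
  (∀ x : ℝ, 0 ≤ x → x ≤ 1 → 0 ≤ hh N (e * av u).re (sq u) x) ∧
  ‖1 - ((N : ℂ) + 1) * (t * e * av u) * ∫ s in (0 : ℝ)..1, ∏ k, (1 - (s : ℂ) * (t * e * u k))‖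
    ≤ XX N (e * av u).re ‖av u‖ (sq u) t

/-- the value of `F` as an integral of `F'` and as a product -/
def FINT_S : Prop := ∀ (N : ℕ) (z w : Fin N → ℂ) (c : ℂ), 1 ≤ N → Cfg2 N z w c → ∀ y : ℂ,
  ‖y‖ * ∏ j, ‖y - z j‖ =
    ((N : ℝ) + 1) * EE w * ‖y‖ * ‖∫ s in (0 : ℝ)..1, ∏ k, (1 - (s : ℂ) * (y * uu w k))‖ ∧
  ∏ j, ‖y - z j‖ < Real.sqrt (((N + 1) * (1 + ‖c - y‖ ^ 2) - ‖y‖ ^ 2) / N) ^ N

/-- all real inequalities (assembly of the above) -/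
def BF_S : Prop := ∀ (N : ℕ) (z w : Fin N → ℂ) (c : ℂ), 3 ≤ N → Cfg2 N z w c →
  BFacts N (rr w) (dd w c) ‖c‖ (SS w) (mm w) (EE w)

/-- `n = 4`: the key inequality with the signs of the squares -/
def KEY3_S : Prop := ∀ (z w : Fin 3 → ℂ) (c : ℂ), Cfg2 3 z w c → 0 < rr w →
  EE w * (1 - (1 - rr w ^ 2) * Real.sqrt (1 - 2 * rr w ^ 2 + SS w * rr w ^ 2) ^ 3
    + (3 * rr w ^ 2 / 2 - rr w ^ 3) * (SS w - rr w ^ 2 - 4 * (1 - rr w) ^ 2)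
    - 8 * Real.sqrt 2 / 3 * rr w ^ 3 * ((1 - rr w) * Real.sqrt (1 - rr w))) <
  rr w ^ 2 * Real.sqrt ((4 * (1 + dd w c ^ 2) - rr w ^ 2) / 3) ^ 3

/-- `n = 2` and `n = 3` -/
def N12_S : Prop := ∀ (N : ℕ) (z w : Fin N → ℂ) (c : ℂ), 1 ≤ N → N ≤ 2 → ¬ Cfg2 N z w c

/-! ## B. The integral `J` -/

/-- closed form bounds of `J` -/
def JCF_S : Prop := ∀ (N : ℕ) (ρ S y lam : ℝ), 3 ≤ N → 0 ≤ y → 0 < lam →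
  (∀ x : ℝ, 0 ≤ x → x ≤ y → hh N ρ S x ≤ 1 - lam * x) →
  JJ N ρ S y ≤ 4 / ((N + 2) * lam ^ 2) ∧
  (lam * y ≤ 1 → JJ N ρ S y ≤ 4 / ((N + 2) * lam ^ 2) *
    (1 - Real.sqrt (1 - lam * y) ^ N * (1 + N / 2 * (lam * y))))

/-- `J` is monotone in the parameters -/
def JMON_S : Prop := ∀ (N : ℕ) (ρ S y ρ1 S1 : ℝ), 3 ≤ N → 0 ≤ y → ρ1 ≤ ρ → S ≤ S1 →
  JJ N ρ S y ≤ JJ N ρ1 S1 y

/-- `∫ x h` -/
noncomputable def I1 (p s y : ℝ) : ℝ := y ^ 2 / 2 - 2 / 3 * p * y ^ 3 + s * y ^ 4 / 4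

/-- `∫ x h^2` -/
noncomputable def I2 (p s y : ℝ) : ℝ :=
  y ^ 2 / 2 - 4 / 3 * p * y ^ 3 + (2 * p ^ 2 + s) * y ^ 4 / 2 - 4 / 5 * p * s * y ^ 5
    + s ^ 2 * y ^ 6 / 6

/-- polynomial bounds of `J` for `N = 3, 4, 5, 6` -/
def JPOL_S : Prop := ∀ (ρ S y : ℝ), 0 ≤ y →
  ((∀ x : ℝ, 0 ≤ x → x ≤ y → 0 ≤ hh 3 ρ S x) →
    JJ 3 ρ S y ≤ y ^ 2 / 2 + 9 / 4 * I1 (3 * ρ - 2) (3 * S - 2) y) ∧
  ((∀ x : ℝ, 0 ≤ x → x ≤ y → 0 ≤ hh 4 ρ S x) →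
    JJ 4 ρ S y ≤ 4 * I1 (2 * ρ - 1) (2 * S - 1) y) ∧
  ((∀ x : ℝ, 0 ≤ x → x ≤ y → 0 ≤ hh 5 ρ S x) →
    JJ 5 ρ S y ≤ 2 * I1 ((5 * ρ - 2) / 3) ((5 * S - 2) / 3) y
      + 25 / 8 * I2 ((5 * ρ - 2) / 3) ((5 * S - 2) / 3) y) ∧
  ((∀ x : ℝ, 0 ≤ x → x ≤ y → 0 ≤ hh 6 ρ S x) →
    JJ 6 ρ S y ≤ 6 * I2 ((3 * ρ - 1) / 2) ((3 * S - 1) / 2) y)

/-! ## C. Tangents of the logarithm -/

/-- tangents in the variables `x - 1/x`, `x^2 - 1`; the derivative vanishes at `x = E` -/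
def TAN1_S : Prop := ∀ (E A C : ℝ), 1 < E → 0 ≤ C → A * (E ^ 2 + 1) = E + 2 * C * E ^ 3 →
  2 * A ≤ 1 + 2 * C → A * (E - 1 / E) ≤ 4 * C * E ^ 2 →
  A * (E - 1 / E) - C * (E ^ 2 - 1) ≤ Real.log E →
  ∀ x : ℝ, 1 ≤ x → A * (x - 1 / x) - C * (x ^ 2 - 1) ≤ Real.log x

/-- tangents in the variables `x - 1`, `x^2 - 1`; the derivative vanishes at `x = y` -/
def TAN2_S : Prop := ∀ (y C : ℝ), 1 < y → 1 ≤ 2 * C * y ^ 2 →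
  (y - 1) / y + C * (y - 1) ^ 2 ≤ Real.log y →
  ∀ x : ℝ, 1 ≤ x → (1 / y + 2 * C * y) * (x - 1) - C * (x ^ 2 - 1) ≤ Real.log x

/-! ## D. Final inequalities -/

/-- common last step: `d ≤ 1/4` and a small error term -/
def FIN_S : Prop := ∀ (N : ℕ) (r d R S m E : ℝ), 4 ≤ N → BFacts N r d R S m E → 0 < r →
  d ≤ 1 / 4 → XX N r r S r ≤ 1 - r ^ 2 * Real.exp ((1 - r ^ 2) / 2) → False

/-- the corner `r ≥ 31/32`, `d ≤ 1/4` for `N ≥ 4` -/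
def CORNER_S : Prop := ∀ (N : ℕ) (r d R S m E : ℝ), 4 ≤ N → BFacts N r d R S m E →
  31 / 32 ≤ r → d ≤ 1 / 4 → False

/-- large `N`, small `d` -/
def H1_S : Prop := ∀ (N : ℕ) (r d R S m E : ℝ), 64 ≤ N → BFacts N r d R S m E →
  d ≤ 1 / 4 → False

/-- `R ≥ 2` -/
def H2_S : Prop := ∀ (N : ℕ) (r d R S m E : ℝ), 50 ≤ N → BFacts N r d R S m E →
  2 ≤ R → False

/-- large `N`, `d ≥ 1/4`, `R ≤ 2` (kernel check, uniform in `N`) -/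
def UNI_S : Prop := ∀ (N : ℕ) (r d R S m E : ℝ), 64 ≤ N → BFacts N r d R S m E →
  1 / 4 ≤ d → R ≤ 2 → False

/-- `4 ≤ N < 64` outside the corner (kernel check for each `N`) -/
def CHK_S : Prop := ∀ (N : ℕ) (r d R S m E : ℝ), 4 ≤ N → N ≤ 63 → BFacts N r d R S m E →
  (49 < N → R ≤ 2) → 31 / 32 ≤ r ∧ d ≤ 1 / 4

/-- `N = 3` outside its corner (kernel check) -/
def CHK3_S : Prop := ∀ (r d R S m E : ℝ), BFacts 3 r d R S m E →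
  15 / 16 ≤ r ∧ d ≤ 1 / 16

/-- `N = 3`, corner -/
def N3C_S : Prop := ∀ (r d R S m E : ℝ), BFacts 3 r d R S m E → 15 / 16 ≤ r → d ≤ 1 / 16 →
  r ^ 2 * Real.sqrt ((4 * (1 + d ^ 2) - r ^ 2) / 3) ^ 3 ≤
  E * (1 - (1 - r ^ 2) * Real.sqrt (1 - 2 * r ^ 2 + S * r ^ 2) ^ 3
    + (3 * r ^ 2 / 2 - r ^ 3) * (S - r ^ 2 - 4 * (1 - r) ^ 2)
    - 8 * Real.sqrt 2 / 3 * r ^ 3 * ((1 - r) * Real.sqrt (1 - r)))

/-! ## E. The theorems -/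

/-- no normalised counterexample -/
def FINAL_S : Prop := ∀ (N : ℕ) (z w : Fin N → ℂ) (c : ℂ), 1 ≤ N → ¬ Cfg2 N z w c

/-- Borcea's inequality for `p ≥ 2` and all degrees -/
def MAIN_S : Prop :=
  ∀ (n : ℕ), 2 ≤ n → ∀ (z : Fin n → ℂ) (p : ℝ), 2 ≤ p → ∀ (c : ℂ) (k : Fin n),
      ∃ w : ℂ,
        (Polynomial.derivative (∏ j : Fin n, (Polynomial.X - Polynomial.C (z j)))).IsRoot w ∧
        ‖z k - w‖ ≤ ((1 / (n : ℝ)) * ∑ j : Fin n, ‖z j - c‖ ^ p) ^ (1 / p)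

/-- Sendov's conjecture -/
def SENDOV_S : Prop :=
  ∀ (P : ℂ[X]), 2 ≤ P.natDegree → (∀ x : ℂ, P.IsRoot x → ‖x‖ ≤ 1) →
    ∀ a : ℂ, P.IsRoot a → ∃ w : ℂ, (Polynomial.derivative P).IsRoot w ∧ ‖a - w‖ ≤ 1

end Pool.Agent.Lib.MP_af3a4a_an.SV
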